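import Mathlib

set_option autoImplicit false

namespace Pool.Agent.Lib.MP_916210_gt

open Filter Topology Set

/-- The topology of pointwise convergence on the set `C(X, ℝ)` of continuous real functions:
the topology induced from the product `X → ℝ`. -/
abbrev tp (X : Type) [TopologicalSpace X] : TopologicalSpace C(X, ℝ) :=
  TopologicalSpace.induced (fun f : C(X, ℝ) => (f : X → ℝ)) inferInstance

/-- A map `C_p(X) → C_p(Y)` is continuous for the topologies of pointwise convergence. -/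
def CpContinuous {X Y : Type} [TopologicalSpace X] [TopologicalSpace Y]
    (φ : C(X, ℝ) → C(Y, ℝ)) : Prop :=
  @Continuous _ _ (tp X) (tp Y) φ

/-- `X` and `Y` are `l`-equivalent: `C_p(X)` and `C_p(Y)` are linearly homeomorphic. -/
def LEquivalent (X Y : Type) [TopologicalSpace X] [TopologicalSpace Y] : Prop :=
  ∃ e : C(X, ℝ) ≃ₗ[ℝ] C(Y, ℝ), CpContinuous e ∧ CpContinuous e.symm

/-- The subspace `A` of `X` is `l`-embedded: there is a continuous linear extender
`C_p(A) → C_p(X)`. -/
def LEmbedded {X : Type} [TopologicalSpace X] (A : Set X) : Prop :=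
  ∃ φ : C(A, ℝ) →ₗ[ℝ] C(X, ℝ), CpContinuous φ ∧ ∀ (f : C(A, ℝ)) (a : A), φ f a = f a

/-- `X` is `l`-stable: `X` is `l`-equivalent to `X ⊕ A` for each `l`-embedded `A ⊆ X`. -/
def LStable (X : Type) [TopologicalSpace X] : Prop :=
  ∀ A : Set X, LEmbedded A → LEquivalent X (X ⊕ A)

/-- `X` is `S`-stable: `X × (ω+1)` is `l`-equivalent to `X`. -/
def SStable (X : Type) [TopologicalSpace X] : Prop :=
  LEquivalent (X × OnePoint ℕ) X

/-- evaluation functional -/
def ev {X : Type} [TopologicalSpace X] (x : X) : C(X, ℝ) →ₗ[ℝ] ℝ where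
  toFun f := f x
  map_add' _ _ := rfl
  map_smul' _ _ := rfl

theorem ev_apply {X : Type} [TopologicalSpace X] (x : X) (f : C(X, ℝ)) : ev x f = f x := rfl

theorem tp_eq (X : Type) [TopologicalSpace X] :
    tp X = ⨅ x : X, TopologicalSpace.induced (ev x) inferInstance := by
  unfold tp
  exact (induced_to_pi (X := C(X, ℝ)) (fun f : C(X, ℝ) => (f : X → ℝ)))

/-- Continuity in the pointwise topologies of a linear map means that every coordinate is a
finite linear combination of evaluations. -/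
theorem cp_iff {X Y : Type} [TopologicalSpace X] [TopologicalSpace Y]
    (φ : C(X, ℝ) →ₗ[ℝ] C(Y, ℝ)) :
    CpContinuous φ ↔ ∀ y : Y, ∃ μ : X →₀ ℝ, ∀ f : C(X, ℝ), φ f y = μ.sum fun x c => c * f x := by
  have h1 : CpContinuous φ ↔ ∀ y : Y, @Continuous _ _ (tp X) _ (((ev y).comp φ : C(X, ℝ) →ₗ[ℝ] ℝ)) := by
    unfold CpContinuous
    rw [@continuous_induced_rng _ _ _ _ _ _ (tp X), @continuous_pi_iff _ _ _ (tp X)]
    rfl
  rw [h1]
  refine forall_congr' fun y => ?_
  rw [tp_eq, ← LinearMap.mem_span_iff_continuous, Finsupp.mem_span_range_iff_exists_finsupp]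
  refine exists_congr fun μ => ?_
  constructor
  · intro h f
    have := congrArg (fun g : C(X, ℝ) →ₗ[ℝ] ℝ => g f) h
    simp only [LinearMap.comp_apply, ev_apply] at this
    rw [← this]
    simp only [Finsupp.sum, LinearMap.sum_apply, LinearMap.smul_apply, ev_apply, smul_eq_mul]
  · intro h
    ext f
    simp only [LinearMap.comp_apply, ev_apply]
    rw [h f]
    simp only [Finsupp.sum, LinearMap.sum_apply, LinearMap.smul_apply, ev_apply, smul_eq_mul]

theorem LEquivalent.trans {X Y Z : Type} [TopologicalSpace X] [TopologicalSpace Y]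
    [TopologicalSpace Z] (h : LEquivalent X Y) (h' : LEquivalent Y Z) : LEquivalent X Z := by
  obtain ⟨e, he, he'⟩ := h
  obtain ⟨g, hg, hg'⟩ := h'
  refine ⟨e.trans g, ?_, ?_⟩
  · exact @Continuous.comp _ _ _ (tp X) (tp Y) (tp Z) _ _ hg he
  · exact @Continuous.comp _ _ _ (tp Z) (tp Y) (tp X) _ _ he' hg'

theorem LEquivalent.symm {X Y : Type} [TopologicalSpace X] [TopologicalSpace Y]
    (h : LEquivalent X Y) : LEquivalent Y X := by
  obtain ⟨e, he, he'⟩ := h
  exact ⟨e.symm, he', he⟩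

/-- Homeomorphic spaces are `l`-equivalent. -/
theorem LEquivalent.of_homeomorph {X Y : Type} [TopologicalSpace X] [TopologicalSpace Y]
    (h : X ≃ₜ Y) : LEquivalent X Y := by
  refine ⟨{ toFun := fun f => f.comp ⟨h.symm, h.symm.continuous⟩
            invFun := fun f => f.comp ⟨h, h.continuous⟩
            map_add' := fun _ _ => rfl
            map_smul' := fun _ _ => rfl
            left_inv := fun f => by ext x; simp
            right_inv := fun f => by ext x; simp }, ?_, ?_⟩
  · refine (@continuous_induced_rng _ _ _ _ _ _ (tp X)).2 ?_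
    refine @continuous_pi _ _ _ (tp X) _ _ fun y => ?_
    exact @Continuous.comp _ _ _ (tp X) _ _ _ _ (continuous_apply (h.symm y))
      (@continuous_induced_dom _ _ (fun f : C(X, ℝ) => (f : X → ℝ)) _)
  · refine (@continuous_induced_rng _ _ _ _ _ _ (tp Y)).2 ?_
    refine @continuous_pi _ _ _ (tp Y) _ _ fun y => ?_
    exact @Continuous.comp _ _ _ (tp Y) _ _ _ _ (continuous_apply (h y))
      (@continuous_induced_dom _ _ (fun f : C(Y, ℝ) => (f : Y → ℝ)) _)

/-- A linear map between function spaces of compact spaces which is continuous for the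
pointwise topologies is bounded for the sup norms. -/
theorem cp_bounded {X Y : Type} [TopologicalSpace X] [CompactSpace X] [TopologicalSpace Y]
    [CompactSpace Y] (φ : C(X, ℝ) →ₗ[ℝ] C(Y, ℝ)) (hφ : CpContinuous φ) :
    ∃ C : ℝ, 0 ≤ C ∧ ∀ (f : C(X, ℝ)) (y : Y), |φ f y| ≤ C * ‖f‖ := by
  have hb : ∀ y : Y, ∃ C : ℝ, ∀ f : C(X, ℝ), ‖((ev y).comp φ : C(X, ℝ) →ₗ[ℝ] ℝ) f‖ ≤ C * ‖f‖ := by
    intro y
    obtain ⟨μ, hμ⟩ := (cp_iff φ).1 hφ y
    refine ⟨μ.sum fun _ c => |c|, fun f => ?_⟩
    simp only [LinearMap.comp_apply, ev_apply, Real.norm_eq_abs]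
    rw [hμ f]
    unfold Finsupp.sum
    rw [Finset.sum_mul]
    refine (Finset.abs_sum_le_sum_abs _ _).trans (Finset.sum_le_sum fun x _ => ?_)
    rw [abs_mul]
    exact mul_le_mul_of_nonneg_left (f.norm_coe_le_norm x) (abs_nonneg _)
  choose C hC using hb
  let g : Y → (C(X, ℝ) →L[ℝ] ℝ) := fun y => ((ev y).comp φ).mkContinuous (C y) (hC y)
  obtain ⟨C', hC'⟩ := banach_steinhaus (g := g) (fun f => ⟨‖φ f‖, fun y => (φ f).norm_coe_le_norm y⟩)
  refine ⟨max C' 0, le_max_right _ _, fun f y => ?_⟩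
  calc |φ f y| = ‖g y f‖ := rfl
    _ ≤ ‖g y‖ * ‖f‖ := (g y).le_opNorm f
    _ ≤ max C' 0 * ‖f‖ := by
        apply mul_le_mul_of_nonneg_right ((hC' y).trans (le_max_left _ _)) (norm_nonneg _)

end Pool.Agent.Lib.MP_916210_gt
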