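import Mathlib

set_option autoImplicit false

namespace Pool.Agent.Lib.MP_916210_gt

open Filter Topology Set

variable {α : Type}

/-- Different ultrafilters are separated by a set. -/
theorem exists_sep {a b : Ultrafilter α} (h : a ≠ b) : ∃ S : Set α, S ∈ a ∧ S ∉ b := by
  by_contra hcon
  push Not at hcon
  exact h (Ultrafilter.eq_of_le (f := b) (g := a) (fun S hS => hcon S hS)).symm

/-- Finitely many ultrafilters can be told apart by a single colouring. -/
theorem exists_col [Nonempty α] (F : Finset (Ultrafilter α)) :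
    ∃ c : α → Ultrafilter α, ∀ a ∈ F, {n | c n = a} ∈ a := by
  classical
  induction F using Finset.induction_on with
  | empty => exact ⟨fun n => pure n, by simp⟩
  | insert a F ha ih =>
    obtain ⟨c, hc⟩ := ih
    have hsep : ∀ b : Ultrafilter α, b ∈ F → ∃ S : Set α, S ∈ a ∧ S ∉ b := by
      intro b hb
      exact exists_sep (fun h => ha (h ▸ hb))
    choose! S hS hS' using hsep
    set T : Set α := ⋂ b ∈ F, S b with hT
    have hTa : T ∈ a := by
      rw [hT]
      exact (Filter.biInter_finset_mem F).2 hS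
    have hTb : ∀ b ∈ F, T ∉ b := fun b hb h =>
      hS' b hb (Filter.mem_of_superset h (Set.biInter_subset_of_mem hb))
    refine ⟨fun n => if n ∈ T then a else c n, fun b hb => ?_⟩
    rw [Finset.mem_insert] at hb
    rcases hb with rfl | hb
    · refine Filter.mem_of_superset hTa fun n hn => ?_
      simp only [Set.mem_ofPred_eq, if_pos hn]
    · have h1 : Tᶜ ∈ b := Ultrafilter.compl_mem_iff_notMem.2 (hTb b hb)
      refine Filter.mem_of_superset (Filter.inter_mem h1 (hc b hb)) fun n hn => ?_
      simp only [Set.mem_ofPred_eq]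
      rw [if_neg hn.1]
      exact hn.2

theorem exists_sep_finset [Nonempty α] (F : Finset (Ultrafilter α)) (P : Ultrafilter α → Prop) :
    ∃ S : Set α, ∀ a ∈ F, (S ∈ a ↔ P a) := by
  obtain ⟨c, hc⟩ := exists_col F
  refine ⟨{n | P (c n)}, fun a ha => ⟨fun h => ?_, fun h => ?_⟩⟩
  · obtain ⟨n, hn1, hn2⟩ := a.nonempty_of_mem (Filter.inter_mem h (hc a ha))
    rw [Set.mem_ofPred_eq] at hn1 hn2
    rwa [hn2] at hn1
  · refine Filter.mem_of_superset (hc a ha) fun n hn => ?_
    rw [Set.mem_ofPred_eq] at hn ⊢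
    rwa [hn]

/-- codes of the finite initial segments of a binary sequence -/
def adSet (x : ℕ → Bool) : Set ℕ :=
  Set.range fun n : ℕ => Encodable.encode ((List.range n).map x)

theorem adSet_inj (x : ℕ → Bool) :
    Function.Injective fun n : ℕ => Encodable.encode ((List.range n).map x) := by
  intro n m h
  have := Encodable.encode_injective h
  have := congrArg List.length this
  simpa using this

theorem adSet_infinite (x : ℕ → Bool) : (adSet x).Infinite :=
  Set.infinite_range_of_injective (adSet_inj x)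

theorem adSet_inter_finite {x y : ℕ → Bool} (h : x ≠ y) : (adSet x ∩ adSet y).Finite := by
  obtain ⟨m, hm⟩ := Function.ne_iff.1 h
  apply Set.Finite.subset (Set.Finite.image (fun n : ℕ => Encodable.encode ((List.range n).map x))
    (Set.finite_Iic m))
  rintro _ ⟨⟨n, rfl⟩, ⟨n', hn'⟩⟩
  refine ⟨n, ?_, rfl⟩
  have h1 := Encodable.encode_injective hn'
  have h2 : n' = n := by simpa using congrArg List.length h1
  subst h2
  by_contra hlt
  rw [Set.mem_Iic, not_le] at hlt
  have h3 := congrArg (fun l => l[m]?) h1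
  simp only [List.getElem?_map, List.getElem?_range hlt, Option.map_some, Option.some.injEq] at h3
  exact hm h3.symm

/-- Greedy choice of a subset with sum in a prescribed window. -/
theorem exists_subset_sum {β : Type} [DecidableEq β] (Q : Finset β) (w : β → ℝ) (δ t : ℝ)
    (hw : ∀ a ∈ Q, 0 ≤ w a ∧ w a ≤ δ) (hδ : 0 ≤ δ) (ht : 0 ≤ t) (hQ : t ≤ ∑ a ∈ Q, w a) :
    ∃ Q' ⊆ Q, t ≤ ∑ a ∈ Q', w a ∧ ∑ a ∈ Q', w a ≤ t + δ := by
  induction Q using Finset.induction_on with
  | empty =>
    refine ⟨∅, subset_rfl, hQ, ?_⟩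
    rw [Finset.sum_empty]
    positivity
  | insert a Q ha ih =>
    by_cases h : t ≤ ∑ a ∈ Q, w a
    · obtain ⟨Q', h1, h2⟩ := ih (fun b hb => hw b (Finset.mem_insert_of_mem hb)) h
      exact ⟨Q', h1.trans (Finset.subset_insert _ _), h2⟩
    · refine ⟨insert a Q, subset_rfl, hQ, ?_⟩
      rw [Finset.sum_insert ha]
      have := (hw a (Finset.mem_insert_self _ _)).2
      push Not at h
      linarith

/-- Partition into `l` parts of large weight. -/
theorem exists_partition {β : Type} [DecidableEq β] (w : β → ℝ) (δ t : ℝ) (hδ : 0 ≤ δ)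
    (ht : 0 ≤ t) (l : ℕ) : ∀ (Q : Finset β), (∀ a ∈ Q, 0 ≤ w a ∧ w a ≤ δ) →
    (l : ℝ) * (t + δ) ≤ ∑ a ∈ Q, w a →
    ∃ g : β → ℕ, ∀ i < l, t ≤ ∑ a ∈ Q with g a = i, w a := by
  induction l with
  | zero => exact fun Q _ _ => ⟨fun _ => 0, fun i hi => absurd hi (Nat.not_lt_zero i)⟩
  | succ l ih =>
    intro Q hw hQ
    push_cast at hQ
    have hl : (0:ℝ) ≤ l := Nat.cast_nonneg l
    have h0 : 0 ≤ (l:ℝ) * (t + δ) := by positivity
    obtain ⟨Q', hQ', h1, h2⟩ := exists_subset_sum Q w δ t hw hδ ht (by nlinarith)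
    have h3 : ∑ a ∈ Q \ Q', w a + ∑ a ∈ Q', w a = ∑ a ∈ Q, w a := Finset.sum_sdiff hQ'
    obtain ⟨g, hg⟩ := ih (Q \ Q') (fun a ha => hw a (Finset.mem_sdiff.1 ha).1) (by nlinarith)
    refine ⟨fun a => if a ∈ Q' then l else g a, fun i hi => ?_⟩
    rcases Nat.lt_succ_iff_lt_or_eq.1 hi with hi | rfl
    · refine (hg i hi).trans ?_
      apply Finset.sum_le_sum_of_subset_of_nonneg
      · intro a ha
        rw [Finset.mem_filter, Finset.mem_sdiff] at ha
        rw [Finset.mem_filter]
        refine ⟨ha.1.1, ?_⟩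
        simp only [if_neg ha.1.2]
        exact ha.2
      · intro a ha _
        exact (hw a (Finset.mem_filter.1 ha).1).1
    · refine h1.trans ?_
      apply Finset.sum_le_sum_of_subset_of_nonneg
      · intro a ha
        rw [Finset.mem_filter]
        refine ⟨hQ' ha, ?_⟩
        simp only [if_pos ha]
      · intro a ha _
        exact (hw a (Finset.mem_filter.1 ha).1).1

end Pool.Agent.Lib.MP_916210_gt
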