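import Mathlib
import Pool.Agent.Lib.MP_916210_gt.Ultra

set_option autoImplicit false

namespace Pool.Agent.Lib.MP_916210_gt

open Filter Topology Set

open Classical in
/-- The mass of the clopen set given by `S` under the finitely supported measure `μ`. -/
noncomputable def mass (μ : Ultrafilter ℕ →₀ ℝ) (S : Set ℕ) : ℝ :=
  ∑ a ∈ μ.support with S ∈ a, μ a

open Classical in
/-- The total variation mass of the clopen set given by `S`. -/
noncomputable def amass (μ : Ultrafilter ℕ →₀ ℝ) (S : Set ℕ) : ℝ :=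
  ∑ a ∈ μ.support with S ∈ a, |μ a|

theorem amass_nonneg (μ : Ultrafilter ℕ →₀ ℝ) (S : Set ℕ) : 0 ≤ amass μ S :=
  Finset.sum_nonneg fun _ _ => abs_nonneg _

theorem amass_mono (μ : Ultrafilter ℕ →₀ ℝ) {S T : Set ℕ} (h : S ⊆ T) :
    amass μ S ≤ amass μ T := by
  classical
  apply Finset.sum_le_sum_of_subset_of_nonneg
  · intro a ha
    rw [Finset.mem_filter] at ha ⊢
    exact ⟨ha.1, Filter.mem_of_superset ha.2 h⟩
  · intro a _ _
    exact abs_nonneg _

theorem amass_split (μ : Ultrafilter ℕ →₀ ℝ) (T S : Set ℕ) :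
    amass μ T = amass μ (T ∩ S) + amass μ (T \ S) := by
  classical
  unfold amass
  rw [← Finset.sum_union]
  · apply Finset.sum_congr _ fun _ _ => rfl
    ext a
    simp only [Finset.mem_union, Finset.mem_filter]
    constructor
    · rintro ⟨h1, h2⟩
      rcases Ultrafilter.mem_or_compl_mem a S with h | h
      · exact Or.inl ⟨h1, Filter.inter_mem h2 h⟩
      · exact Or.inr ⟨h1, Filter.inter_mem h2 h⟩
    · rintro (⟨h1, h2⟩ | ⟨h1, h2⟩)
      · exact ⟨h1, Filter.mem_of_superset h2 Set.inter_subset_left⟩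
      · exact ⟨h1, Filter.mem_of_superset h2 Set.sdiff_subset⟩
  · rw [Finset.disjoint_left]
    intro a ha ha'
    rw [Finset.mem_filter] at ha ha'
    have := Filter.inter_mem ha.2 ha'.2
    have h2 : (T ∩ S) ∩ (T \ S) = ∅ := by
      ext x
      simp only [Set.mem_inter_iff, Set.mem_sdiff, Set.mem_empty_iff_false, iff_false]
      tauto
    rw [h2] at this
    exact Ultrafilter.empty_notMem this

theorem amass_union_le (μ : Ultrafilter ℕ →₀ ℝ) (T S : Set ℕ) :
    amass μ (T ∪ S) ≤ amass μ T + amass μ S := by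
  rw [amass_split μ (T ∪ S) T]
  apply add_le_add
  · exact amass_mono μ Set.inter_subset_right
  · apply amass_mono μ
    intro x hx
    exact hx.1.resolve_left hx.2

theorem amass_empty (μ : Ultrafilter ℕ →₀ ℝ) : amass μ ∅ = 0 := by
  classical
  apply Finset.sum_eq_zero
  intro a ha
  rw [Finset.mem_filter] at ha
  exact absurd ha.2 Ultrafilter.empty_notMem

/-- sum of absolute values over a finset of atoms covered by `S` -/
theorem sum_abs_le_amass (μ : Ultrafilter ℕ →₀ ℝ) (S : Set ℕ) (F : Finset (Ultrafilter ℕ))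
    (hF : ∀ a ∈ F, S ∈ a) : ∑ a ∈ F, |μ a| ≤ amass μ S := by
  classical
  unfold amass
  have h1 : ∑ a ∈ F, |μ a| = ∑ a ∈ F with a ∈ μ.support, |μ a| := by
    rw [Finset.sum_filter_of_ne]
    intro a _ ha
    rw [Finsupp.mem_support_iff]
    exact fun h => ha (by rw [h, abs_zero])
  rw [h1]
  apply Finset.sum_le_sum_of_subset_of_nonneg
  · intro a ha
    rw [Finset.mem_filter] at ha ⊢
    exact ⟨ha.2, hF a ha.1⟩
  · intro a _ _
    exact abs_nonneg _

/-- A finitely additive bounded function on sets of naturals is small around finite sets of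
ultrafilters that avoid a finite exceptional set. -/
theorem exists_bad (θ : Set ℕ → ℝ) (C : ℝ) (h0 : ∀ T, 0 ≤ θ T) (hC : ∀ T, θ T ≤ C)
    (hadd : ∀ T S, θ T = θ (T ∩ S) + θ (T \ S)) (η : ℝ) (hη : 0 < η) :
    ∃ B : Finset (Ultrafilter ℕ), ∀ F : Finset (Ultrafilter ℕ), Disjoint F B →
      ∃ T : Set ℕ, (∀ a ∈ F, T ∈ a) ∧ θ T < η := by
  classical
  by_contra hcon
  push Not at hcon
  have key : ∀ M : ℕ, ∃ F : Finset (Ultrafilter ℕ), ∀ T : Set ℕ, (∀ a ∈ F, T ∈ a) →
      (M : ℝ) * η ≤ θ T := by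
    intro M
    induction M with
    | zero => exact ⟨∅, fun T _ => by simpa using h0 T⟩
    | succ M ih =>
      obtain ⟨F, hF⟩ := ih
      obtain ⟨F', hd, hF'⟩ := hcon F
      refine ⟨F ∪ F', fun T hT => ?_⟩
      obtain ⟨S, hS⟩ := exists_sep_finset (F ∪ F') (fun a => a ∈ F)
      have h1 : (M : ℝ) * η ≤ θ (T ∩ S) := by
        apply hF
        intro a ha
        exact Filter.inter_mem (hT a (Finset.mem_union_left _ ha))
          ((hS a (Finset.mem_union_left _ ha)).2 ha)
      have h2 : η ≤ θ (T \ S) := by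
        apply hF'
        intro a ha
        have hc : Sᶜ ∈ a := Ultrafilter.compl_mem_iff_notMem.2 fun h =>
          (Finset.disjoint_left.1 hd ha) ((hS a (Finset.mem_union_right _ ha)).1 h)
        exact Filter.inter_mem (hT a (Finset.mem_union_right _ ha)) hc
      rw [hadd T S]
      push_cast
      linarith
  obtain ⟨M, hM⟩ := exists_nat_gt (C / η)
  obtain ⟨F, hF⟩ := key M
  have h1 := hF Set.univ (fun a _ => Filter.univ_mem)
  have h2 := hC Set.univ
  rw [div_lt_iff₀ hη] at hM
  linarith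

end Pool.Agent.Lib.MP_916210_gt
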