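import Mathlib
import Pool.Agent.Lib.MP_916210_gt.Mass

set_option autoImplicit false

namespace Pool.Agent.Lib.MP_916210_gt

open Filter Topology Set

section step

variable (ν : ℕ → (Ultrafilter ℕ →₀ ℝ)) (Sk : ℕ → Set ℕ) (C : ℝ)

open Classical in
/-- positive atoms of `ν k` inside `Sk k` -/
noncomputable def posAtoms (k : ℕ) : Finset (Ultrafilter ℕ) :=
  (ν k).support.filter fun a => Sk k ∈ a ∧ 0 < ν k a

theorem sum_posAtoms (k : ℕ) (hbig : 1 / 2 < mass (ν k) (Sk k)) :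
    1 / 2 < ∑ a ∈ posAtoms ν Sk k, ν k a := by
  classical
  refine hbig.trans_le ?_
  unfold mass posAtoms
  rw [← Finset.filter_filter, Finset.sum_filter (p := fun a => 0 < ν k a)]
  apply Finset.sum_le_sum
  intro a _
  split_ifs with h
  · exact le_rfl
  · exact not_lt.1 h

theorem exists_theta (hC : ∀ k, amass (ν k) Set.univ ≤ C) :
    ∃ θ : Set ℕ → ℝ, (∀ T, Tendsto (fun k => amass (ν k) T) (hyperfilter ℕ) (𝓝 (θ T))) ∧
      (∀ T, 0 ≤ θ T) ∧ (∀ T, θ T ≤ C) ∧ (∀ T S, θ T = θ (T ∩ S) + θ (T \ S)) ∧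
      (∀ T S, T ⊆ S → θ T ≤ θ S) := by
  have h1 : ∀ T, ∃ x : ℝ, Tendsto (fun k => amass (ν k) T) (hyperfilter ℕ) (𝓝 x) := by
    intro T
    have hmem : ∀ k, amass (ν k) T ∈ Set.Icc (0:ℝ) C := fun k =>
      ⟨amass_nonneg _ _, (amass_mono _ (Set.subset_univ T)).trans (hC k)⟩
    obtain ⟨x, -, hx⟩ := (isCompact_Icc (a := (0:ℝ)) (b := C)).ultrafilter_le_nhds
      ((hyperfilter ℕ).map fun k => amass (ν k) T) (by
        rw [Filter.le_principal_iff]
        exact Filter.mem_map.2 (Filter.univ_mem' hmem))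
    exact ⟨x, hx⟩
  choose θ hθ using h1
  refine ⟨θ, hθ, fun T => ?_, fun T => ?_, fun T S => ?_, fun T S hTS => ?_⟩
  · exact ge_of_tendsto' (hθ T) fun k => amass_nonneg _ _
  · exact le_of_tendsto' (hθ T) fun k => (amass_mono _ (Set.subset_univ T)).trans (hC k)
  · refine tendsto_nhds_unique (hθ T) (((hθ (T ∩ S)).add (hθ (T \ S))).congr fun k => ?_)
    exact (amass_split (ν k) T S).symm
  · exact le_of_tendsto_of_tendsto' (hθ T) (hθ S) fun k => amass_mono _ hTS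

theorem hump_step (hC : ∀ k, amass (ν k) Set.univ ≤ C)
    (hsmall : ∀ k a, Sk k ∈ a → |ν k a| ≤ 1 / ((k : ℝ) + 1))
    (hbig : ∀ k, 1 / 2 < mass (ν k) (Sk k))
    (j : ℕ) (W : Set ℕ) (R : Finset (Ultrafilter ℕ)) (K : Set ℕ) (hK : K ∈ hyperfilter ℕ)
    (hW : ∀ k ∈ K, amass (ν k) W ≤ 1 / 8) (η : ℝ) (hη : 0 < η) :
    ∃ (k : ℕ) (V K' : Set ℕ), k ∈ K ∧ j ≤ k ∧ Disjoint V W ∧ (∀ a ∈ R, V ∉ a) ∧
      (∀ a ∈ (ν k).support, V ∈ a → a ∈ posAtoms ν Sk k) ∧
      (∃ J : Finset (Ultrafilter ℕ), J ⊆ (ν k).support ∧ (∀ a ∈ J, V ∈ a) ∧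
        1 / 4 ≤ ∑ a ∈ J, ν k a) ∧
      K' ∈ hyperfilter ℕ ∧ K' ⊆ K ∧ ∀ k' ∈ K', amass (ν k') V ≤ η := by
  classical
  obtain ⟨θ, hθ, h0, hθC, hadd, hmono⟩ := exists_theta ν C hC
  obtain ⟨B, hB⟩ := exists_bad θ C h0 hθC hadd η hη
  -- choose a large index
  obtain ⟨M, hM⟩ := exists_nat_gt (8 * ((R.card : ℝ) + B.card))
  have hKinf : K.Infinite := by
    intro hfin
    exact hfin.notMem_hyperfilter hK
  obtain ⟨k, hkK, hk⟩ := hKinf.exists_gt (max j M)
  have hjk : j ≤ k := (le_max_left _ _).trans hk.le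
  have hMk : (M : ℝ) ≤ k := by exact_mod_cast (le_max_right _ _).trans hk.le
  -- the new atoms
  set P := posAtoms ν Sk k with hP
  set J : Finset (Ultrafilter ℕ) := P.filter fun a => a ∉ R ∪ B ∧ W ∉ a with hJ
  have hPs : ∀ a ∈ P, a ∈ (ν k).support ∧ Sk k ∈ a ∧ 0 < ν k a := by
    intro a ha
    rw [hP, posAtoms, Finset.mem_filter] at ha
    exact ha
  have hJP : ∀ a ∈ J, a ∈ P ∧ a ∉ R ∪ B ∧ W ∉ a := fun a ha => Finset.mem_filter.1 ha
  -- mass estimate
  have hmass : 1 / 4 ≤ ∑ a ∈ J, ν k a := by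
    have h1 : 1 / 2 < ∑ a ∈ P, ν k a := sum_posAtoms ν Sk k (hbig k)
    have h2 : ∑ a ∈ P, ν k a ≤ ∑ a ∈ J, ν k a + (∑ a ∈ P with a ∈ R ∪ B, ν k a) +
        ∑ a ∈ P with W ∈ a, ν k a := by
      rw [hJ, Finset.sum_filter, Finset.sum_filter, Finset.sum_filter, ← Finset.sum_add_distrib,
        ← Finset.sum_add_distrib]
      apply Finset.sum_le_sum
      intro a ha
      have hpos := (hPs a ha).2.2
      split_ifs with h1 h2 h3 h4 h5 h6 h7 <;> first | linarith | (exfalso; tauto)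
    have h3 : ∑ a ∈ P with a ∈ R ∪ B, ν k a ≤ 1 / 8 := by
      have h4 : ∑ a ∈ P with a ∈ R ∪ B, ν k a ≤
          ((P.filter fun a => a ∈ R ∪ B).card : ℝ) * (1 / ((k : ℝ) + 1)) := by
        rw [← nsmul_eq_mul]
        apply Finset.sum_le_card_nsmul
        intro a ha
        have ha' := Finset.mem_filter.1 ha
        exact (le_abs_self _).trans (hsmall k a (hPs a ha'.1).2.1)
      have h5 : ((P.filter fun a => a ∈ R ∪ B).card : ℝ) ≤ (R.card : ℝ) + B.card := by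
        have : (P.filter fun a => a ∈ R ∪ B).card ≤ R.card + B.card :=
          (Finset.card_le_card (fun a ha => (Finset.mem_filter.1 ha).2)).trans
            (Finset.card_union_le R B)
        exact_mod_cast this
      have hk1 : (0:ℝ) < (k : ℝ) + 1 := by positivity
      refine h4.trans ?_
      rw [mul_one_div, div_le_iff₀ hk1]
      linarith
    have h6 : ∑ a ∈ P with W ∈ a, ν k a ≤ 1 / 8 := by
      refine le_trans ?_ (hW k hkK)
      refine le_trans ?_ (sum_abs_le_amass (ν k) W (P.filter fun a => W ∈ a)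
        (fun a ha => (Finset.mem_filter.1 ha).2))
      exact Finset.sum_le_sum fun a _ => le_abs_self _
    linarith
  -- the small neighbourhood
  obtain ⟨T, hT, hTη⟩ := hB J (by
    rw [Finset.disjoint_left]
    intro a ha ha'
    exact (hJP a ha).2.1 (Finset.mem_union_right _ ha'))
  obtain ⟨S, hS⟩ := exists_sep_finset (R ∪ (ν k).support) (fun a => a ∈ J)
  set V : Set ℕ := (T ∩ S) \ W with hV
  have hJV : ∀ a ∈ J, V ∈ a := by
    intro a ha
    have h1 : S ∈ a := (hS a (Finset.mem_union_right _ (hPs a (hJP a ha).1).1)).2 ha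
    have h2 : Wᶜ ∈ a := Ultrafilter.compl_mem_iff_notMem.2 (hJP a ha).2.2
    exact Filter.inter_mem (Filter.inter_mem (hT a ha) h1) h2
  have hVJ : ∀ a ∈ R ∪ (ν k).support, V ∈ a → a ∈ J := by
    intro a ha h
    refine (hS a ha).1 (Filter.mem_of_superset h ?_)
    intro x hx
    exact hx.1.2
  have hVθ : θ V < η := by
    refine lt_of_le_of_lt (hmono V T ?_) hTη
    intro x hx
    exact hx.1.1
  refine ⟨k, V, K ∩ {k' | amass (ν k') V < η}, hkK, hjk, ?_, ?_, ?_, ⟨J, ?_, hJV, hmass⟩, ?_, ?_, ?_⟩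
  · rw [Set.disjoint_left]
    intro x hx
    exact hx.2
  · intro a ha h
    exact (hJP a (hVJ a (Finset.mem_union_left _ ha) h)).2.1 (Finset.mem_union_left _ ha)
  · intro a ha h
    exact (hJP a (hVJ a (Finset.mem_union_right _ ha) h)).1
  · intro a ha
    exact (hPs a (hJP a ha).1).1
  · exact Filter.inter_mem hK ((hθ V).eventually_lt_const hVθ)
  · exact Set.inter_subset_left
  · intro k' hk'
    exact le_of_lt hk'.2

end step

end Pool.Agent.Lib.MP_916210_gt
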