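import Mathlib
import Pool.Agent.Lib.MP_916210_gt.Hump

set_option autoImplicit false

namespace Pool.Agent.Lib.MP_916210_gt

open Filter Topology Set

theorem exists_chain {σ : Type} (G : ℕ → σ → Prop) (R : ℕ → σ → σ → Prop) (s0 : σ)
    (h0 : G 0 s0) (hstep : ∀ j s, G j s → ∃ s', G (j + 1) s' ∧ R j s s') :
    ∃ f : ℕ → σ, (∀ j, G j (f j)) ∧ ∀ j, R j (f j) (f (j + 1)) := by
  classical
  choose! next hG hR using hstep
  let f : ℕ → σ := fun j => Nat.rec s0 (fun j s => next j s) j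
  have hf : ∀ j, G j (f j) := by
    intro j
    induction j with
    | zero => exact h0
    | succ j ih => exact hG j _ ih
  exact ⟨f, hf, fun j => hR j _ (hf j)⟩

/-- the state of the inductive construction -/
structure HState where
  k : ℕ
  V : Set ℕ
  W : Set ℕ
  K : Set ℕ
  R : Finset (Ultrafilter ℕ)

theorem hump_seq (ν : ℕ → (Ultrafilter ℕ →₀ ℝ)) (Sk : ℕ → Set ℕ) (C : ℝ)
    (hC : ∀ k, amass (ν k) Set.univ ≤ C)
    (hsmall : ∀ k a, Sk k ∈ a → |ν k a| ≤ 1 / ((k : ℝ) + 1))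
    (hbig : ∀ k, 1 / 2 < mass (ν k) (Sk k)) :
    ∃ (k : ℕ → ℕ) (V : ℕ → Set ℕ), (∀ j, j ≤ k j) ∧ (∀ i j, i < j → Disjoint (V j) (V i)) ∧
      (∀ i j, i < j → ∀ a ∈ (ν (k i)).support, V j ∉ a) ∧
      (∀ j, ∀ a ∈ (ν (k j)).support, V j ∈ a → a ∈ posAtoms ν Sk (k j)) ∧
      (∀ j, ∃ J : Finset (Ultrafilter ℕ), J ⊆ (ν (k j)).support ∧ (∀ a ∈ J, V j ∈ a) ∧
        1 / 4 ≤ ∑ a ∈ J, ν (k j) a) ∧
      (∀ i j, i < j → amass (ν (k j)) (V i) ≤ 1 / (16 * 2 ^ i)) := by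
  classical
  let G : ℕ → HState → Prop := fun j s => s.K ∈ hyperfilter ℕ ∧
    ∀ k ∈ s.K, amass (ν k) s.W ≤ 1 / 8 - 1 / (8 * 2 ^ j)
  let Rl : ℕ → HState → HState → Prop := fun j s s' =>
    s'.k ∈ s.K ∧ j ≤ s'.k ∧ Disjoint s'.V s.W ∧ (∀ a ∈ s.R, s'.V ∉ a) ∧
    (∀ a ∈ (ν s'.k).support, s'.V ∈ a → a ∈ posAtoms ν Sk s'.k) ∧
    (∃ J : Finset (Ultrafilter ℕ), J ⊆ (ν s'.k).support ∧ (∀ a ∈ J, s'.V ∈ a) ∧
      1 / 4 ≤ ∑ a ∈ J, ν s'.k a) ∧
    s'.K ⊆ s.K ∧ (∀ k' ∈ s'.K, amass (ν k') s'.V ≤ 1 / (16 * 2 ^ j)) ∧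
    s'.W = s.W ∪ s'.V ∧ s'.R = s.R ∪ (ν s'.k).support
  obtain ⟨f, hfG, hfR⟩ := exists_chain G Rl ⟨0, ∅, ∅, Set.univ, ∅⟩ (by
      refine ⟨Filter.univ_mem, fun k _ => ?_⟩
      rw [amass_empty]
      norm_num) (by
      rintro j s ⟨hK, hW⟩
      have h2 : (0:ℝ) < 2 ^ j := by positivity
      obtain ⟨k, V, K', h1, h2, h3, h4, h5, h6, h7, h8, h9⟩ := hump_step ν Sk C hC hsmall hbig j
        s.W s.R s.K hK (fun k hk => (hW k hk).trans (by
          have : (0:ℝ) ≤ 1 / (8 * 2 ^ j) := by positivity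
          linarith)) (1 / (16 * 2 ^ j)) (by positivity)
      refine ⟨⟨k, V, s.W ∪ V, K', s.R ∪ (ν k).support⟩, ⟨h7, fun k' hk' => ?_⟩,
        h1, h2, h3, h4, h5, h6, h8, h9, rfl, rfl⟩
      calc amass (ν k') (s.W ∪ V) ≤ amass (ν k') s.W + amass (ν k') V := amass_union_le _ _ _
        _ ≤ (1 / 8 - 1 / (8 * 2 ^ j)) + 1 / (16 * 2 ^ j) := add_le_add (hW k' (h8 hk')) (h9 k' hk')
        _ = 1 / 8 - 1 / (8 * 2 ^ (j + 1)) := by
            rw [pow_succ]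
            field_simp
            ring)
  have hWmono : ∀ i j, i ≤ j → (f i).W ⊆ (f j).W := by
    intro i j hij
    induction j, hij using Nat.le_induction with
    | base => exact subset_rfl
    | succ j _ ih =>
      refine ih.trans ?_
      rw [(hfR j).2.2.2.2.2.2.2.2.1]
      exact Set.subset_union_left
  have hRmono : ∀ i j, i ≤ j → (f i).R ⊆ (f j).R := by
    intro i j hij
    induction j, hij using Nat.le_induction with
    | base => exact subset_rfl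
    | succ j _ ih =>
      refine ih.trans ?_
      rw [(hfR j).2.2.2.2.2.2.2.2.2]
      exact Finset.subset_union_left
  have hKanti : ∀ i j, i ≤ j → (f j).K ⊆ (f i).K := by
    intro i j hij
    induction j, hij using Nat.le_induction with
    | base => exact subset_rfl
    | succ j _ ih => exact (hfR j).2.2.2.2.2.2.1.trans ih
  refine ⟨fun j => (f (j + 1)).k, fun j => (f (j + 1)).V, fun j => (hfR j).2.1, ?_, ?_, ?_, ?_, ?_⟩
  · intro i j hij
    apply (hfR j).2.2.1.mono_right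
    refine Set.Subset.trans ?_ (hWmono (i + 1) j hij)
    rw [(hfR i).2.2.2.2.2.2.2.2.1]
    exact Set.subset_union_right
  · intro i j hij a ha
    apply (hfR j).2.2.2.1 a
    apply hRmono (i + 1) j hij
    rw [(hfR i).2.2.2.2.2.2.2.2.2]
    exact Finset.mem_union_right _ ha
  · intro j
    exact (hfR j).2.2.2.2.1
  · intro j
    exact (hfR j).2.2.2.2.2.1
  · intro i j hij
    apply (hfR i).2.2.2.2.2.2.2.1
    exact hKanti (i + 1) j hij (hfR j).1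

end Pool.Agent.Lib.MP_916210_gt
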