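import Mathlib
import Pool.Agent.Lib.MP_916210_gt.Hump2

set_option autoImplicit false

namespace Pool.Agent.Lib.MP_916210_gt

open Filter Topology Set

theorem geo_sum (J j : ℕ) (h : J ≤ j) :
    ∑ i ∈ Finset.Ico J j, (1 : ℝ) / (16 * 2 ^ i) ≤ 1 / (8 * 2 ^ J) := by
  have key : ∑ i ∈ Finset.Ico J j, (1 : ℝ) / (16 * 2 ^ i) = 1 / (8 * 2 ^ J) - 1 / (8 * 2 ^ j) := by
    induction j, h using Nat.le_induction with
    | base => simp
    | succ j hj ih =>
      rw [Finset.sum_Ico_succ_top hj, ih, pow_succ]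
      field_simp
      ring
  rw [key]
  have : (0:ℝ) ≤ 1 / (8 * 2 ^ j) := by positivity
  linarith

/-- Selection of an almost disjoint index set avoiding boundary phenomena. -/
theorem exists_good_index (V : ℕ → Set ℕ) (hV : ∀ i j, i < j → Disjoint (V j) (V i))
    (D : Set (Ultrafilter ℕ)) (hD : D.Countable) :
    ∃ x : ℕ → Bool, ∀ a ∈ D, (⋃ j ∈ adSet x, V j) ∈ a → ∃ j ∈ adSet x, V j ∈ a := by
  classical
  by_contra hcon
  push Not at hcon
  choose d hd hd1 hd2 using hcon
  have hV' : ∀ i j, i ≠ j → Disjoint (V i) (V j) := by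
    intro i j hij
    rcases lt_or_gt_of_ne hij with h | h
    · exact (hV i j h).symm
    · exact hV j i h
  have hinj : Function.Injective d := by
    intro x y hxy
    by_contra hne
    have h1 := hd1 x
    have h2 := hd1 y
    rw [← hxy] at h2
    have h3 := Filter.inter_mem h1 h2
    have h4 : (⋃ j ∈ adSet x, V j) ∩ (⋃ j ∈ adSet y, V j) ⊆ ⋃ j ∈ adSet x ∩ adSet y, V j := by
      rintro n ⟨hn1, hn2⟩
      simp only [Set.mem_iUnion, exists_prop] at hn1 hn2 ⊢
      obtain ⟨i, hi, hni⟩ := hn1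
      obtain ⟨j, hj, hnj⟩ := hn2
      have hij : i = j := by
        by_contra hij
        exact Set.disjoint_left.1 (hV' i j hij) hni hnj
      subst hij
      exact ⟨i, ⟨hi, hj⟩, hni⟩
    have h5 := Filter.mem_of_superset h3 h4
    rw [Ultrafilter.mem_coe, Ultrafilter.finite_biUnion_mem_iff (adSet_inter_finite hne)] at h5
    obtain ⟨j, hj, hj'⟩ := h5
    exact hd2 x j hj.1 hj'
  have hc : (Set.univ : Set (ℕ → Bool)).Countable := by
    have h6 : (Set.range d).Countable := hD.mono (by rintro _ ⟨x, rfl⟩; exact hd x)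
    rw [← Set.preimage_range d]
    exact h6.preimage hinj
  have hc' : Countable (ℕ → Bool) := Set.countable_univ_iff.1 hc
  have hc2 : Countable (Set ℕ) := by
    have h7 : Function.Injective (fun (s : Set ℕ) (n : ℕ) => decide (n ∈ s)) := by
      intro s t hst
      ext n
      have := congrFun hst n
      simpa using this
    exact h7.countable
  obtain ⟨g, hg⟩ := exists_surjective_nat (Set ℕ)
  exact Function.cantor_surjective g hg

theorem hump (μ : Ultrafilter ℕ → (Ultrafilter ℕ →₀ ℝ))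
    (hcont : ∀ S : Set ℕ, Continuous fun y => mass (μ y) S) (C : ℝ)
    (hC : ∀ n : ℕ, amass (μ (pure n)) Set.univ ≤ C) :
    ∃ δ : ℝ, 0 < δ ∧ ∀ (n : ℕ) (S : Set ℕ), (∀ a, S ∈ a → |μ (pure n) a| ≤ δ) →
      mass (μ (pure n)) S ≤ 1 / 2 := by
  classical
  by_contra hcon
  push Not at hcon
  have h1 : ∀ k : ℕ, ∃ (n : ℕ) (S : Set ℕ), (∀ a, S ∈ a → |μ (pure n) a| ≤ 1 / ((k : ℝ) + 1)) ∧
      1 / 2 < mass (μ (pure n)) S := fun k => hcon (1 / ((k : ℝ) + 1)) (by positivity)
  choose nn Sk hsmall hbig using h1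
  set ν : ℕ → (Ultrafilter ℕ →₀ ℝ) := fun k => μ (pure (nn k)) with hν
  obtain ⟨k, V, hjk, hVd, hVR, hVP, hVJ, hVa⟩ := hump_seq ν Sk C (fun k => hC (nn k)) hsmall hbig
  have hV' : ∀ i j, i ≠ j → Disjoint (V i) (V j) := by
    intro i j hij
    rcases lt_or_gt_of_ne hij with h | h
    · exact (hVd i j h).symm
    · exact hVd j i h
  -- the good index set
  obtain ⟨x, hx⟩ := exists_good_index V hVd (⋃ j : ℕ, ((ν (k j)).support : Set (Ultrafilter ℕ)))
    (Set.countable_iUnion fun j => Finset.countable_toSet _)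
  set e : ℕ → ℕ := fun n : ℕ => Encodable.encode ((List.range n).map x) with he
  have heinj : Function.Injective e := adSet_inj x
  have hemem : ∀ i, e i ∈ adSet x := fun i => ⟨i, rfl⟩
  set y : Ultrafilter ℕ := (hyperfilter ℕ).map fun i => nn (k (e i)) with hy
  set r := (μ y).support.card with hr
  set l : ℕ := r + 1 with hl
  have hl0 : (0:ℝ) < l := by rw [hl]; positivity
  set J0 : ℕ := 16 * l with hJ0
  have hJ0R : (J0 : ℝ) = 16 * l := by rw [hJ0]; push_cast; ring
  have hJ01 : 1 / ((J0 : ℝ) + 1) ≤ 1 / (16 * l) := by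
    apply one_div_le_one_div_of_le (by positivity)
    rw [hJ0R]
    linarith
  have hJ02 : 1 / (8 * (2:ℝ) ^ J0) ≤ 1 / (16 * l) := by
    apply one_div_le_one_div_of_le (by positivity)
    have h2 : (J0 : ℝ) < 2 ^ J0 := by exact_mod_cast J0.lt_two_pow_self
    rw [← hJ0R]
    have h3 : (0:ℝ) < 2 ^ J0 := by positivity
    linarith
  -- the sets of atoms in `V j`
  set Q : ℕ → Finset (Ultrafilter ℕ) := fun j => (ν (k j)).support.filter fun a => V j ∈ a with hQ
  have hQmem : ∀ j a, a ∈ Q j ↔ a ∈ (ν (k j)).support ∧ V j ∈ a := fun j a => by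
    rw [hQ]; exact Finset.mem_filter
  have hQpos : ∀ j, ∀ a ∈ Q j, 0 ≤ ν (k j) a ∧ ν (k j) a ≤ 1 / ((j : ℝ) + 1) := by
    intro j a ha
    rw [hQmem] at ha
    have h2 := hVP j a ha.1 ha.2
    rw [posAtoms, Finset.mem_filter] at h2
    refine ⟨h2.2.2.le, ?_⟩
    refine (le_abs_self _).trans ((hsmall (k j) a h2.2.1).trans ?_)
    apply one_div_le_one_div_of_le (by positivity)
    have : (j : ℝ) ≤ k j := by exact_mod_cast hjk j
    linarith
  have hQsum : ∀ j, 1 / 4 ≤ ∑ a ∈ Q j, ν (k j) a := by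
    intro j
    obtain ⟨J, hJs, hJV, hJm⟩ := hVJ j
    refine hJm.trans ?_
    apply Finset.sum_le_sum_of_subset_of_nonneg
    · intro a ha
      rw [hQmem]
      exact ⟨hJs ha, hJV a ha⟩
    · intro a ha _
      exact (hQpos j a ha).1
  have hpart : ∀ j, J0 ≤ j → ∃ g : Ultrafilter ℕ → ℕ, ∀ i < l,
      1 / (8 * (l:ℝ)) ≤ ∑ a ∈ Q j with g a = i, ν (k j) a := by
    intro j hj
    apply exists_partition (ν (k j)) (1 / (16 * l)) (1 / (8 * l)) (by positivity) (by positivity)
      l (Q j)
    · intro a ha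
      refine ⟨(hQpos j a ha).1, (hQpos j a ha).2.trans (le_trans ?_ hJ01)⟩
      apply one_div_le_one_div_of_le (by positivity)
      have : (J0 : ℝ) ≤ j := by exact_mod_cast hj
      linarith
    · refine le_trans ?_ (hQsum j)
      field_simp
      norm_num
  choose! g hg using hpart
  have hcol : ∀ j, ∃ c : ℕ → Ultrafilter ℕ, ∀ a ∈ Q j, {n | c n = a} ∈ a := fun j =>
    exists_col (Q j)
  choose c hc using hcol
  set T : ℕ → Set ℕ := fun i => {n | ∃ j ∈ adSet x, J0 ≤ j ∧ n ∈ V j ∧ g j (c j n) = i} with hT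
  -- description of `T i` on the atoms
  have hTV : ∀ i j, j ∈ adSet x → J0 ≤ j → ∀ a ∈ (ν (k j)).support, V j ∈ a →
      (T i ∈ a ↔ g j a = i) := by
    intro i j hj hJj a ha hVa
    have haQ : a ∈ Q j := (hQmem j a).2 ⟨ha, hVa⟩
    constructor
    · intro hTa
      obtain ⟨n, ⟨hn1, hn2⟩, hn3⟩ := a.nonempty_of_mem
        (Filter.inter_mem (Filter.inter_mem hTa hVa) (hc j a haQ))
      obtain ⟨j', hj', hJj', hnV, hgi⟩ := hn1
      have hjj : j' = j := by
        by_contra hne
        exact Set.disjoint_left.1 (hV' j' j hne) hnV hn2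
      subst hjj
      have hn4 : c j' n = a := hn3
      rw [hn4] at hgi
      exact hgi
    · intro hga
      refine Filter.mem_of_superset (Filter.inter_mem hVa (hc j a haQ)) ?_
      rintro n ⟨hn1, hn2⟩
      have hn4 : c j n = a := hn2
      exact ⟨j, hj, hJj, hn1, by rw [hn4]; exact hga⟩
  have hTnV : ∀ i j, j ∈ adSet x → J0 ≤ j → ∀ a ∈ (ν (k j)).support, V j ∉ a → T i ∈ a →
      ∃ j' ∈ Finset.Ico J0 j, V j' ∈ a := by
    intro i j hj hJj a ha hVa hTa
    have h2 : (⋃ j ∈ adSet x, V j) ∈ a := by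
      refine Filter.mem_of_superset hTa ?_
      rintro n ⟨j', hj', -, hn, -⟩
      exact Set.mem_biUnion hj' hn
    obtain ⟨j', hj', hVj'⟩ := hx a (Set.mem_iUnion.2 ⟨j, ha⟩) h2
    refine ⟨j', ?_, hVj'⟩
    rw [Finset.mem_Ico]
    constructor
    · obtain ⟨n, ⟨j'', hj'', hJj'', hn1, -⟩, hn2⟩ := a.nonempty_of_mem (Filter.inter_mem hTa hVj')
      have hjj : j'' = j' := by
        by_contra hne
        exact Set.disjoint_left.1 (hV' j'' j' hne) hn1 hn2
      rw [← hjj]
      exact hJj''
    · rcases lt_trichotomy j' j with h | h | h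
      · exact h
      · exact absurd (h ▸ hVj') hVa
      · exact absurd hVj' (hVR j j' h a ha)
  -- mass estimate
  have hmass : ∀ i < l, ∀ j, j ∈ adSet x → J0 ≤ j → 1 / (16 * (l:ℝ)) ≤ mass (ν (k j)) (T i) := by
    intro i hi j hj hJj
    have hsplit : mass (ν (k j)) (T i) = (∑ a ∈ Q j with g j a = i, ν (k j) a) +
        ∑ a ∈ (ν (k j)).support with (T i ∈ a ∧ V j ∉ a), ν (k j) a := by
      unfold mass
      rw [← Finset.sum_union]
      · apply Finset.sum_congr _ fun _ _ => rfl
        ext a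
        simp only [Finset.mem_union, Finset.mem_filter, hQmem]
        constructor
        · rintro ⟨h2, h3⟩
          by_cases h4 : V j ∈ a
          · exact Or.inl ⟨⟨h2, h4⟩, (hTV i j hj hJj a h2 h4).1 h3⟩
          · exact Or.inr ⟨h2, h3, h4⟩
        · rintro (⟨⟨h2, h3⟩, h4⟩ | ⟨h2, h3, h4⟩)
          · exact ⟨h2, (hTV i j hj hJj a h2 h3).2 h4⟩
          · exact ⟨h2, h3⟩
      · rw [Finset.disjoint_left]
        intro a ha ha'
        rw [Finset.mem_filter, hQmem] at ha
        rw [Finset.mem_filter] at ha'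
        exact ha'.2.2 ha.1.2
    have hrest : ∑ a ∈ (ν (k j)).support with (T i ∈ a ∧ V j ∉ a), |ν (k j) a| ≤
        1 / (16 * (l:ℝ)) := by
      calc ∑ a ∈ (ν (k j)).support with (T i ∈ a ∧ V j ∉ a), |ν (k j) a|
          ≤ ∑ a ∈ (ν (k j)).support with (T i ∈ a ∧ V j ∉ a),
              ∑ j' ∈ Finset.Ico J0 j, if V j' ∈ a then |ν (k j) a| else 0 := by
            apply Finset.sum_le_sum
            intro a ha
            rw [Finset.mem_filter] at ha
            obtain ⟨j', hj', hVj'⟩ := hTnV i j hj hJj a ha.1 ha.2.2 ha.2.1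
            refine le_trans ?_ (Finset.single_le_sum (f := fun j' =>
              if V j' ∈ a then |ν (k j) a| else 0) (fun j' _ => ?_) hj')
            · simp only [if_pos hVj', le_refl]
            · split_ifs
              · exact abs_nonneg _
              · exact le_rfl
        _ ≤ ∑ a ∈ (ν (k j)).support,
              ∑ j' ∈ Finset.Ico J0 j, if V j' ∈ a then |ν (k j) a| else 0 := by
            apply Finset.sum_le_sum_of_subset_of_nonneg (Finset.filter_subset _ _)
            intro a _ _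
            apply Finset.sum_nonneg
            intro j' _
            split_ifs
            · exact abs_nonneg _
            · exact le_rfl
        _ = ∑ j' ∈ Finset.Ico J0 j, amass (ν (k j)) (V j') := by
            rw [Finset.sum_comm]
            apply Finset.sum_congr rfl
            intro j' _
            unfold amass
            rw [Finset.sum_filter]
        _ ≤ ∑ j' ∈ Finset.Ico J0 j, 1 / (16 * 2 ^ j') := by
            apply Finset.sum_le_sum
            intro j' hj'
            exact hVa j' j (Finset.mem_Ico.1 hj').2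
        _ ≤ 1 / (8 * 2 ^ J0) := geo_sum J0 j hJj
        _ ≤ 1 / (16 * (l:ℝ)) := hJ02
    have hrest2 : -(1 / (16 * (l:ℝ))) ≤
        ∑ a ∈ (ν (k j)).support with (T i ∈ a ∧ V j ∉ a), ν (k j) a := by
      have h3 := (Finset.abs_sum_le_sum_abs (fun a => ν (k j) a)
        ((ν (k j)).support.filter fun a => (T i ∈ a ∧ V j ∉ a))).trans hrest
      exact (abs_le.1 h3).1
    have h5 := hg j hJj i hi
    have h6 : 1 / (8 * (l:ℝ)) = 1 / (16 * (l:ℝ)) + 1 / (16 * (l:ℝ)) := by
      field_simp
      norm_num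
    rw [hsplit]
    linarith
  -- the limit measure
  have hlim : ∀ i < l, 1 / (16 * (l:ℝ)) ≤ mass (μ y) (T i) := by
    intro i hi
    have h2 : Tendsto (fun m : ℕ => mass (μ (pure m)) (T i)) y (𝓝 (mass (μ y) (T i))) :=
      ((hcont (T i)).tendsto y).comp (Ultrafilter.tendsto_pure_self y)
    have h3 : Tendsto (fun i' : ℕ => mass (ν (k (e i'))) (T i)) (hyperfilter ℕ)
        (𝓝 (mass (μ y) (T i))) := by
      rw [hy, Ultrafilter.coe_map, Filter.tendsto_map'_iff] at h2
      exact h2
    apply ge_of_tendsto h3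
    have h4 : {i' | J0 ≤ e i'} ∈ hyperfilter ℕ := by
      have h5 : (e ⁻¹' (Set.Iio J0)).Finite := (Set.finite_Iio J0).preimage heinj.injOn
      refine Filter.mem_of_superset (Filter.mem_of_superset (hyperfilter_le_cofinite
        h5.compl_mem_cofinite) subset_rfl) ?_
      intro i' hi'
      by_contra hlt
      apply hi'
      rw [Set.mem_preimage, Set.mem_Iio]
      exact not_le.1 hlt
    exact Filter.mem_of_superset h4 fun i' hi' => hmass i hi (e i') (hemem i') hi'
  have hex : ∀ i : Fin l, ∃ a ∈ (μ y).support, T i ∈ a := by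
    intro i
    by_contra hno
    push Not at hno
    have h2 : mass (μ y) (T i) = 0 := by
      unfold mass
      apply Finset.sum_eq_zero
      intro a ha
      rw [Finset.mem_filter] at ha
      exact absurd ha.2 (hno a ha.1)
    have h3 := hlim i i.2
    rw [h2] at h3
    have h4 : 0 < 1 / (16 * (l:ℝ)) := by positivity
    linarith
  choose b hb hTb using hex
  have hbinj : Function.Injective b := by
    intro i i' hii
    have h2 := hTb i
    rw [hii] at h2
    obtain ⟨n, ⟨j, hj, _, hn, hgi⟩, ⟨j', hj', _, hn', hgi'⟩⟩ := (b i').nonempty_of_mem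
      (Filter.inter_mem h2 (hTb i'))
    have hjj : j = j' := by
      by_contra hne
      exact Set.disjoint_left.1 (hV' j j' hne) hn hn'
    subst hjj
    exact Fin.ext (hgi.symm.trans hgi')
  have hcard : l ≤ r := by
    have h2 : (Finset.univ.image b).card ≤ (μ y).support.card := by
      apply Finset.card_le_card
      intro a ha
      obtain ⟨i, -, rfl⟩ := Finset.mem_image.1 ha
      exact hb i
    rw [Finset.card_image_of_injective _ hbinj, Finset.card_univ, Fintype.card_fin] at h2
    exact h2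
  omega

end Pool.Agent.Lib.MP_916210_gt
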