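import Mathlib
import Pool.Agent.Lib.MP_916210_gt.Hump3

set_option autoImplicit false

namespace Pool.Agent.Lib.MP_916210_gt

open Filter Topology Set

theorem mem_ubind {α β : Type} {x : Ultrafilter α} {f : α → Ultrafilter β} {S : Set β} :
    S ∈ Ultrafilter.bind x f ↔ {n | S ∈ f n} ∈ x := Iff.rfl

theorem ubind_congr {α β : Type} {x : Ultrafilter α} {f g : α → Ultrafilter β}
    (h : {n | f n = g n} ∈ x) : Ultrafilter.bind x f = Ultrafilter.bind x g := by
  apply Ultrafilter.coe_injective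
  ext S
  simp only [Ultrafilter.mem_coe, mem_ubind]
  constructor
  · intro h1
    refine Filter.mem_of_superset (Filter.inter_mem h1 h) ?_
    rintro n ⟨hn1, hn2⟩
    have hn3 : f n = g n := hn2
    have hn4 : S ∈ f n := hn1
    rw [hn3] at hn4
    exact hn4
  · intro h1
    refine Filter.mem_of_superset (Filter.inter_mem h1 h) ?_
    rintro n ⟨hn1, hn2⟩
    have hn3 : f n = g n := hn2
    have hn4 : S ∈ g n := hn1
    rw [← hn3] at hn4
    exact hn4

/-- Not being a fixed point is an open condition. -/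
theorem ubind_ne {x : Ultrafilter ℕ} {f : ℕ → Ultrafilter ℕ} (h : Ultrafilter.bind x f ≠ x) :
    ∃ S ∈ x, ∀ x' : Ultrafilter ℕ, S ∈ x' → Ultrafilter.bind x' f ≠ x' := by
  obtain ⟨T, hT1, hT2⟩ := exists_sep h.symm
  have hT3 : Tᶜ ∈ Ultrafilter.bind x f := Ultrafilter.compl_mem_iff_notMem.2 hT2
  rw [mem_ubind] at hT3
  refine ⟨T ∩ {n | Tᶜ ∈ f n}, Filter.inter_mem hT1 hT3, fun x' hx' heq => ?_⟩
  have h1 : T ∈ x' := Filter.mem_of_superset hx' Set.inter_subset_left
  have h2 : {n | Tᶜ ∈ f n} ∈ x' := Filter.mem_of_superset hx' Set.inter_subset_right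
  have h3 : Tᶜ ∈ Ultrafilter.bind x' f := mem_ubind.2 h2
  rw [heq] at h3
  exact Ultrafilter.compl_mem_iff_notMem.1 h3 h1

theorem finite_choice (m : ℕ) : ∀ (A D : Set (Ultrafilter ℕ)), D ⊆ A → D.Countable →
    (∀ S : Set ℕ, (∃ x ∈ A, S ∈ x) → ∃ d ∈ D, S ∈ d) →
    ∀ (a : ℕ → ℕ → Ultrafilter ℕ), (∀ x ∈ A, ∃ i < m, Ultrafilter.bind x (a i) = x) →
    ∀ b : Ultrafilter ℕ, ∃ r : ℕ → Ultrafilter ℕ, (∀ n, r n = b ∨ ∃ i < m, r n = a i n) ∧
      ∀ x ∈ A, Ultrafilter.bind x r = x := by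
  classical
  induction m with
  | zero =>
    intro A D _ _ _ a ha b
    refine ⟨fun _ => b, fun _ => Or.inl rfl, fun x hx => ?_⟩
    obtain ⟨i, hi, _⟩ := ha x hx
    exact absurd hi (Nat.not_lt_zero i)
  | succ m ih =>
    intro A D hDA hD hdense a ha b
    by_cases hne : D.Nonempty
    swap
    · refine ⟨fun _ => b, fun _ => Or.inl rfl, fun x hx => ?_⟩
      obtain ⟨d, hd, -⟩ := hdense Set.univ ⟨x, hx, Filter.univ_mem⟩
      exact absurd ⟨d, hd⟩ hne
    obtain ⟨d, hd⟩ := hD.exists_eq_range hne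
    have hdD : ∀ j, d j ∈ D := fun j => by rw [hd]; exact ⟨j, rfl⟩
    have hdA : ∀ j, d j ∈ A := fun j => hDA (hdD j)
    set G : Ultrafilter ℕ → Prop := fun x => Ultrafilter.bind x (a m) ≠ x with hG
    set P2 : ℕ → Prop := fun j => ∃ T ∈ d j, ∀ x ∈ A, T ∈ x → ¬ G x with hP2
    have hE : ∀ j, ∃ E : Set ℕ, E ∈ d j ∧ (G (d j) → ∀ x ∈ A, E ∈ x → G x) ∧
        (P2 j → ∀ x ∈ A, E ∈ x → ¬ G x) := by
      intro j
      by_cases h1 : G (d j)
      · obtain ⟨S, hS, hS'⟩ := ubind_ne h1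
        refine ⟨S, hS, fun _ x _ hx => hS' x hx, ?_⟩
        rintro ⟨T, hT, hT'⟩
        exact absurd h1 (hT' (d j) (hdA j) hT)
      · by_cases h2 : P2 j
        · obtain ⟨T, hT, hT'⟩ := h2
          exact ⟨T, hT, fun h => absurd h h1, fun _ => hT'⟩
        · exact ⟨Set.univ, Filter.univ_mem, fun h => absurd h h1, fun h => absurd h h2⟩
    choose E hE1 hE2 hE3 using hE
    set N1 : ℕ → Set ℕ := fun j => E j \ ⋃ i ∈ {i | i ≤ j ∧ P2 i}, E i with hN1
    set N2 : ℕ → Set ℕ := fun j => E j \ ⋃ i ∈ {i | i ≤ j ∧ G (d i)}, E i with hN2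
    have hN1mem : ∀ j, G (d j) → N1 j ∈ d j := by
      intro j hj
      have hfin : {i | i ≤ j ∧ P2 i}.Finite := (Set.finite_Iic j).subset fun i hi => hi.1
      have h1 : (⋃ i ∈ {i | i ≤ j ∧ P2 i}, E i) ∉ d j := by
        rw [Ultrafilter.finite_biUnion_mem_iff hfin]
        rintro ⟨i, ⟨hi1, hi2⟩, hi3⟩
        exact hE3 i hi2 (d j) (hdA j) hi3 hj
      exact Filter.inter_mem (hE1 j) (Ultrafilter.compl_mem_iff_notMem.2 h1)
    have hN2mem : ∀ j, P2 j → N2 j ∈ d j := by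
      intro j hj
      have hfin : {i | i ≤ j ∧ G (d i)}.Finite := (Set.finite_Iic j).subset fun i hi => hi.1
      have h1 : (⋃ i ∈ {i | i ≤ j ∧ G (d i)}, E i) ∉ d j := by
        rw [Ultrafilter.finite_biUnion_mem_iff hfin]
        rintro ⟨i, ⟨hi1, hi2⟩, hi3⟩
        obtain ⟨T, hT, hT'⟩ := hj
        exact hT' (d j) (hdA j) hT (hE2 i hi2 (d j) (hdA j) hi3)
      exact Filter.inter_mem (hE1 j) (Ultrafilter.compl_mem_iff_notMem.2 h1)
    have hN12 : ∀ i j, G (d i) → P2 j → Disjoint (N1 i) (N2 j) := by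
      intro i j hi hj
      rw [Set.disjoint_left]
      rintro n ⟨hn1, hn2⟩ ⟨hn3, hn4⟩
      rcases le_total i j with h | h
      · exact hn4 (Set.mem_biUnion (show i ∈ {i | i ≤ j ∧ G (d i)} from ⟨h, hi⟩) hn1)
      · exact hn2 (Set.mem_biUnion (show j ∈ {j | j ≤ i ∧ P2 j} from ⟨h, hj⟩) hn3)
    set N : Set ℕ := ⋃ j ∈ {j | G (d j)}, N1 j with hN
    have hNmem : ∀ j, G (d j) → N ∈ d j := fun j hj =>
      Filter.mem_of_superset (hN1mem j hj)
        (Set.subset_biUnion_of_mem (u := N1) (show j ∈ {j | G (d j)} from hj))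
    have hNdisj : ∀ j, P2 j → Disjoint N (N2 j) := by
      intro j hj
      rw [hN, Set.disjoint_iUnion₂_left]
      exact fun i hi => hN12 i j hi hj
    -- outside `N` the last map fixes the points
    have c1 : ∀ x ∈ A, N ∉ x → Ultrafilter.bind x (a m) = x := by
      intro x hx hNx
      by_contra hne'
      obtain ⟨S, hS, hS'⟩ := ubind_ne hne'
      have h1 : Nᶜ ∩ S ∈ x := Filter.inter_mem (Ultrafilter.compl_mem_iff_notMem.2 hNx) hS
      obtain ⟨d', hd', hd2⟩ := hdense _ ⟨x, hx, h1⟩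
      rw [hd] at hd'
      obtain ⟨j, rfl⟩ := hd'
      have h2 : G (d j) := hS' (d j) (Filter.mem_of_superset hd2 Set.inter_subset_right)
      have h3 : Nᶜ ∈ d j := Filter.mem_of_superset hd2 Set.inter_subset_left
      exact Ultrafilter.compl_mem_iff_notMem.1 h3 (hNmem j h2)
    -- inside `N` one of the other maps fixes the points
    have c2 : ∀ x ∈ A, N ∈ x → ∃ i < m, Ultrafilter.bind x (a i) = x := by
      intro x hx hNx
      by_contra hno
      push Not at hno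
      have h1 : ∀ i, i < m → ∃ S ∈ x, ∀ x' : Ultrafilter ℕ, S ∈ x' →
          Ultrafilter.bind x' (a i) ≠ x' := fun i hi => ubind_ne (hno i hi)
      choose! S hS hS' using h1
      set S0 : Set ℕ := ⋂ i ∈ Finset.range m, S i with hS0
      have hS0x : S0 ∈ x := (Filter.biInter_finset_mem _).2 fun i hi => hS i (Finset.mem_range.1 hi)
      have hS0' : ∀ x' ∈ A, S0 ∈ x' → ¬ G x' := by
        intro x' hx' hSx' hG'
        obtain ⟨i, hi, hi'⟩ := ha x' hx'
        rcases Nat.lt_succ_iff_lt_or_eq.1 hi with h | h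
        · exact hS' i h x' (Filter.mem_of_superset hSx'
            (Set.biInter_subset_of_mem (Finset.mem_range.2 h))) hi'
        · rw [h] at hi'
          exact hG' hi'
      obtain ⟨d', hd', hd2⟩ := hdense _ ⟨x, hx, Filter.inter_mem hNx hS0x⟩
      rw [hd] at hd'
      obtain ⟨j, rfl⟩ := hd'
      have hNd : N ∈ d j := Filter.mem_of_superset hd2 Set.inter_subset_left
      have hSd : S0 ∈ d j := Filter.mem_of_superset hd2 Set.inter_subset_right
      have hP : P2 j := ⟨S0, hSd, hS0'⟩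
      have h2 := Filter.inter_mem hNd (hN2mem j hP)
      rw [Set.disjoint_iff_inter_eq_empty.1 (hNdisj j hP)] at h2
      exact Ultrafilter.empty_notMem h2
    obtain ⟨r1, hr1, hr1'⟩ := ih {x | x ∈ A ∧ N ∈ x} {x | x ∈ D ∧ N ∈ x}
      (fun x hx => ⟨hDA hx.1, hx.2⟩) (hD.mono fun x hx => hx.1)
      (by
        rintro S ⟨x, ⟨hx1, hx2⟩, hx3⟩
        obtain ⟨d', hd', hd2⟩ := hdense (S ∩ N) ⟨x, hx1, Filter.inter_mem hx3 hx2⟩
        exact ⟨d', ⟨hd', Filter.mem_of_superset hd2 Set.inter_subset_right⟩,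
          Filter.mem_of_superset hd2 Set.inter_subset_left⟩)
      a (fun x hx => c2 x hx.1 hx.2) b
    refine ⟨fun n => if n ∈ N then r1 n else a m n, fun n => ?_, fun x hx => ?_⟩
    · by_cases hn : n ∈ N
      · simp only [if_pos hn]
        rcases hr1 n with h | ⟨i, hi, h⟩
        · exact Or.inl h
        · exact Or.inr ⟨i, hi.trans (Nat.lt_succ_self m), h⟩
      · simp only [if_neg hn]
        exact Or.inr ⟨m, Nat.lt_succ_self m, rfl⟩
    · by_cases hNx : N ∈ x
      · refine (ubind_congr (g := r1) ?_).trans (hr1' x ⟨hx, hNx⟩)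
        refine Filter.mem_of_superset hNx fun n hn => ?_
        exact if_pos hn
      · refine (ubind_congr (g := a m) ?_).trans (c1 x hx hNx)
        refine Filter.mem_of_superset (Ultrafilter.compl_mem_iff_notMem.2 hNx) fun n hn => ?_
        exact if_neg hn

theorem exists_retraction (A : Set (Ultrafilter ℕ)) (b : Ultrafilter ℕ) (hb : b ∈ A)
    (μ : Ultrafilter ℕ → (Ultrafilter ℕ →₀ ℝ)) (hA : ∀ y, ∀ a ∈ (μ y).support, a ∈ A)
    (hcont : ∀ S : Set ℕ, Continuous fun y => mass (μ y) S) (C : ℝ)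
    (hC : ∀ n : ℕ, amass (μ (pure n)) Set.univ ≤ C)
    (h1 : ∀ x ∈ A, ∀ S ∈ x, mass (μ x) S = 1) :
    ∃ r : ℕ → Ultrafilter ℕ, (∀ n, r n ∈ A) ∧ ∀ x ∈ A, Ultrafilter.bind x r = x := by
  classical
  obtain ⟨δ, hδ, hh⟩ := hump μ hcont C hC
  -- near a point of `A` there are big atoms
  have key : ∀ x ∈ A, ∀ S ∈ x, {n : ℕ | ∃ a ∈ (μ (pure n)).support, S ∈ a ∧ δ < |μ (pure n) a|} ∈ x := by
    intro x hx S hS
    have h2 : Tendsto (fun m : ℕ => mass (μ (pure m)) S) x (𝓝 (mass (μ x) S)) :=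
      ((hcont S).tendsto x).comp (Ultrafilter.tendsto_pure_self x)
    rw [h1 x hx S hS] at h2
    have h3 : {n : ℕ | 1 / 2 < mass (μ (pure n)) S} ∈ x :=
      h2.eventually_const_lt (by norm_num)
    refine Filter.mem_of_superset h3 fun n hn => ?_
    by_contra hno
    have h4 : ∀ a, S ∈ a → |μ (pure n) a| ≤ δ := by
      intro a ha
      by_contra hlt
      push Not at hlt
      apply hno
      refine ⟨a, ?_, ha, hlt⟩
      rw [Finsupp.mem_support_iff]
      intro h0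
      rw [h0, abs_zero] at hlt
      exact absurd hlt (not_lt.2 hδ.le)
    exact absurd (hh n S h4) (not_le.2 hn)
  set m : ℕ := ⌈C / δ⌉₊ with hm
  have hcard : ∀ n : ℕ, ((μ (pure n)).support.filter fun a => δ < |μ (pure n) a|).card ≤ m := by
    intro n
    set B := (μ (pure n)).support.filter fun a => δ < |μ (pure n) a| with hB
    have h2 : (B.card : ℝ) * δ ≤ C := by
      calc (B.card : ℝ) * δ = ∑ _a ∈ B, δ := by rw [Finset.sum_const, nsmul_eq_mul]
        _ ≤ ∑ a ∈ B, |μ (pure n) a| :=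
            Finset.sum_le_sum fun a ha => (Finset.mem_filter.1 ha).2.le
        _ ≤ amass (μ (pure n)) Set.univ := sum_abs_le_amass _ _ _ fun a _ => Filter.univ_mem
        _ ≤ C := hC n
    have h3 : (B.card : ℝ) ≤ C / δ := by rwa [le_div_iff₀ hδ]
    exact_mod_cast h3.trans (Nat.le_ceil _)
  have henum : ∀ n : ℕ, ∃ g : ℕ → Ultrafilter ℕ, (∀ i, g i ∈ A) ∧
      ∀ a ∈ (μ (pure n)).support, δ < |μ (pure n) a| → ∃ i < m, g i = a := by
    intro n
    set B := (μ (pure n)).support.filter fun a => δ < |μ (pure n) a| with hB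
    refine ⟨fun i => if h : i < B.card then (B.equivFin.symm ⟨i, h⟩ : Ultrafilter ℕ) else b, ?_, ?_⟩
    · intro i
      by_cases h : i < B.card
      · simp only [dif_pos h]
        exact hA (pure n) _ (Finset.mem_filter.1 (B.equivFin.symm ⟨i, h⟩).2).1
      · simp only [dif_neg h]
        exact hb
    · intro a ha hlt
      have haB : a ∈ B := Finset.mem_filter.2 ⟨ha, hlt⟩
      refine ⟨(B.equivFin ⟨a, haB⟩ : ℕ), (B.equivFin ⟨a, haB⟩).2.trans_le (hcard n), ?_⟩
      simp only [Fin.is_lt, dif_pos, Fin.eta, Equiv.symm_apply_apply]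
  choose g hgA hg using henum
  have hfix : ∀ x ∈ A, ∃ i < m, Ultrafilter.bind x (fun n => g n i) = x := by
    intro x hx
    by_contra hno
    push Not at hno
    have h2 : ∀ i, i < m → ∃ T : Set ℕ, T ∈ x ∧ {n | T ∉ g n i} ∈ x := by
      intro i hi
      obtain ⟨T, hT1, hT2⟩ := exists_sep (hno i hi).symm
      refine ⟨T, hT1, ?_⟩
      have hT3 : Tᶜ ∈ Ultrafilter.bind x (fun n => g n i) :=
        Ultrafilter.compl_mem_iff_notMem.2 hT2
      rw [mem_ubind] at hT3
      refine Filter.mem_of_superset hT3 fun n hn => ?_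
      exact Ultrafilter.compl_mem_iff_notMem.1 hn
    choose! T hT hT' using h2
    set T0 : Set ℕ := ⋂ i ∈ Finset.range m, T i with hT0
    have hT0x : T0 ∈ x := (Filter.biInter_finset_mem _).2 fun i hi => hT i (Finset.mem_range.1 hi)
    have hT1x : (⋂ i ∈ Finset.range m, {n | T i ∉ g n i}) ∈ x :=
      (Filter.biInter_finset_mem _).2 fun i hi => hT' i (Finset.mem_range.1 hi)
    obtain ⟨n, ⟨a, ha, hTa, hlt⟩, hn2⟩ := x.nonempty_of_mem
      (Filter.inter_mem (key x hx T0 hT0x) hT1x)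
    obtain ⟨i, hi, rfl⟩ := hg n a ha hlt
    have h3 : T i ∉ g n i := by
      have := Set.mem_iInter₂.1 hn2 i (Finset.mem_range.2 hi)
      exact this
    exact h3 (Filter.mem_of_superset hTa (Set.biInter_subset_of_mem (Finset.mem_range.2 hi)))
  -- a countable dense set
  set D : Set (Ultrafilter ℕ) := ⋃ n : ℕ, ((μ (pure n)).support : Set (Ultrafilter ℕ)) with hD
  have hDA : D ⊆ A := by
    intro a ha
    obtain ⟨n, hn⟩ := Set.mem_iUnion.1 ha
    exact hA (pure n) a hn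
  have hDc : D.Countable := Set.countable_iUnion fun n => Finset.countable_toSet _
  have hdense : ∀ S : Set ℕ, (∃ x ∈ A, S ∈ x) → ∃ d ∈ D, S ∈ d := by
    rintro S ⟨x, hx, hS⟩
    obtain ⟨n, a, ha, hSa, -⟩ := x.nonempty_of_mem (key x hx S hS)
    exact ⟨a, Set.mem_iUnion.2 ⟨n, ha⟩, hSa⟩
  obtain ⟨r, hr, hr'⟩ := finite_choice m A D hDA hDc hdense (fun i n => g n i) hfix b
  refine ⟨r, fun n => ?_, hr'⟩
  rcases hr n with h | ⟨i, _, h⟩
  · rw [h]; exact hb
  · rw [h]; exact hgA n i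

end Pool.Agent.Lib.MP_916210_gt
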