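import Mathlib
import Pool.Agent.Lib.MP_916210_gt.Basic
import Pool.Agent.Lib.MP_916210_gt.Retract

set_option autoImplicit false

namespace Pool.Agent.Lib.MP_916210_gt

open Filter Topology Set

/-- finite linear combinations of evaluations -/
def IsComb {X : Type} [TopologicalSpace X] (u : C(X, ℝ) → ℝ) : Prop :=
  ∃ μ : X →₀ ℝ, ∀ f : C(X, ℝ), u f = μ.sum fun x c => c * f x

theorem IsComb.eval {X : Type} [TopologicalSpace X] (x : X) : IsComb fun f : C(X, ℝ) => f x := by
  refine ⟨Finsupp.single x 1, fun f => ?_⟩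
  rw [Finsupp.sum_single_index (by rw [zero_mul]), one_mul]

theorem IsComb.add {X : Type} [TopologicalSpace X] {u v : C(X, ℝ) → ℝ} (hu : IsComb u)
    (hv : IsComb v) : IsComb fun f => u f + v f := by
  classical
  obtain ⟨μ, hμ⟩ := hu
  obtain ⟨ν, hν⟩ := hv
  refine ⟨μ + ν, fun f => ?_⟩
  show u f + v f = _
  rw [hμ, hν, Finsupp.sum_add_index']
  · intro x
    rw [zero_mul]
  · intro x a b
    rw [add_mul]

theorem IsComb.const_mul {X : Type} [TopologicalSpace X] {u : C(X, ℝ) → ℝ} (hu : IsComb u)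
    (c : ℝ) : IsComb fun f => c * u f := by
  obtain ⟨μ, hμ⟩ := hu
  refine ⟨c • μ, fun f => ?_⟩
  show c * u f = _
  rw [hμ, Finsupp.sum_smul_index (by intro i; rw [zero_mul]), Finsupp.mul_sum]
  apply Finset.sum_congr rfl
  intro x _
  ring

theorem IsComb.sub {X : Type} [TopologicalSpace X] {u v : C(X, ℝ) → ℝ} (hu : IsComb u)
    (hv : IsComb v) : IsComb fun f => u f - v f := by
  have := hu.add (hv.const_mul (-1))
  refine (?_ : (fun f => u f - v f) = fun f => u f + -1 * v f) ▸ this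
  funext f
  ring

theorem cp_of_comb {X Y : Type} [TopologicalSpace X] [TopologicalSpace Y]
    (φ : C(X, ℝ) →ₗ[ℝ] C(Y, ℝ)) (h : ∀ y, IsComb fun f => φ f y) : CpContinuous φ :=
  (cp_iff φ).2 h

theorem continuous_umap {α β : Type} (f : α → β) :
    Continuous fun x : Ultrafilter α => x.map f := by
  refine continuous_generateFrom_iff.2 ?_
  rintro _ ⟨S, rfl⟩
  exact ultrafilter_isOpen_basic (f ⁻¹' S)

theorem continuous_ubind {α β : Type} (f : α → Ultrafilter β) :
    Continuous fun x : Ultrafilter α => Ultrafilter.bind x f := by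
  refine continuous_generateFrom_iff.2 ?_
  rintro _ ⟨S, rfl⟩
  exact ultrafilter_isOpen_basic {n | S ∈ f n}

/-- indicator of a basic clopen set -/
noncomputable def chi {α : Type} (S : Set α) : C(Ultrafilter α, ℝ) where
  toFun := Set.indicator {x : Ultrafilter α | S ∈ x} fun _ => 1
  continuous_toFun := IsClopen.continuous_indicator
    ⟨ultrafilter_isClosed_basic S, ultrafilter_isOpen_basic S⟩ continuous_const

theorem chi_of_mem {α : Type} {S : Set α} {x : Ultrafilter α} (h : S ∈ x) : chi S x = 1 :=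
  Set.indicator_of_mem (s := {x : Ultrafilter α | S ∈ x}) h fun _ => (1 : ℝ)

theorem chi_of_notMem {α : Type} {S : Set α} {x : Ultrafilter α} (h : S ∉ x) : chi S x = 0 :=
  Set.indicator_of_notMem (s := {x : Ultrafilter α | S ∈ x}) h fun _ => (1 : ℝ)

theorem bind_mem_of_closed {α β : Type} {A : Set (Ultrafilter β)} (hA : IsClosed A)
    {r : α → Ultrafilter β} (hr : ∀ n, r n ∈ A) (x : Ultrafilter α) :
    Ultrafilter.bind x r ∈ A := by
  by_contra hno
  obtain ⟨_, ⟨S, rfl⟩, hS1, hS2⟩ := ultrafilterBasis_is_basis.exists_subset_of_mem_open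
    (show Ultrafilter.bind x r ∈ Aᶜ from hno) hA.isOpen_compl
  have h1 : {n | S ∈ r n} ∈ x := hS1
  obtain ⟨n, hn⟩ := x.nonempty_of_mem h1
  exact hS2 (show r n ∈ {u : Ultrafilter β | S ∈ u} from hn) (hr n)

section swindle

variable (r : ℕ → Ultrafilter ℕ)

/-- shift -/
def sh (y : Ultrafilter (ℕ × ℕ)) : Ultrafilter (ℕ × ℕ) := y.map fun p => (p.1 + 1, p.2)
/-- backward shift -/
def bsh (y : Ultrafilter (ℕ × ℕ)) : Ultrafilter (ℕ × ℕ) := y.map fun p => (p.1 - 1, p.2)
/-- inclusion of the zeroth copy -/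
def inc (u : Ultrafilter ℕ) : Ultrafilter (ℕ × ℕ) := u.map fun n => (0, n)
/-- the retraction in each copy -/
def Rt (y : Ultrafilter (ℕ × ℕ)) : Ultrafilter (ℕ × ℕ) :=
  Ultrafilter.bind y fun p => (r p.2).map fun n => (p.1, n)
/-- second projection followed by the retraction -/
def rho (y : Ultrafilter (ℕ × ℕ)) : Ultrafilter ℕ := Ultrafilter.bind (y.map Prod.snd) r
/-- the zeroth copy -/
def Z0 : Set (ℕ × ℕ) := {p | p.1 = 0}

theorem uext {α : Type} {x y : Ultrafilter α} (h : ∀ S : Set α, S ∈ x ↔ S ∈ y) : x = y :=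
  Ultrafilter.coe_injective (Filter.ext h)

theorem Rt_inc (u : Ultrafilter ℕ) : Rt r (inc u) = inc (Ultrafilter.bind u r) :=
  uext fun _ => Iff.rfl

theorem Rt_sh (y : Ultrafilter (ℕ × ℕ)) : Rt r (sh y) = sh (Rt r y) :=
  uext fun _ => Iff.rfl

theorem Rt_Rt (hr : ∀ n, Ultrafilter.bind (r n) r = r n) (y : Ultrafilter (ℕ × ℕ)) :
    Rt r (Rt r y) = Rt r y := by
  refine uext fun S => ?_
  have h1 : S ∈ Rt r (Rt r y) ↔
      {q : ℕ × ℕ | {n | S ∈ (r n).map fun n => (q.1, n)} ∈ r q.2} ∈ y := Iff.rfl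
  have h2 : S ∈ Rt r y ↔ {q : ℕ × ℕ | (fun n => (q.1, n)) ⁻¹' S ∈ r q.2} ∈ y := Iff.rfl
  rw [h1, h2]
  have h3 : {q : ℕ × ℕ | {n | S ∈ (r n).map fun n => (q.1, n)} ∈ r q.2} =
      {q : ℕ × ℕ | (fun n => (q.1, n)) ⁻¹' S ∈ r q.2} := by
    ext q
    have h4 : q ∈ {q : ℕ × ℕ | {n | S ∈ (r n).map fun n => (q.1, n)} ∈ r q.2} ↔
        (fun n => (q.1, n)) ⁻¹' S ∈ Ultrafilter.bind (r q.2) r := Iff.rfl
    rw [h4, hr]
    rfl
  rw [h3]

theorem Z0_Rt (y : Ultrafilter (ℕ × ℕ)) : Z0 ∈ Rt r y ↔ Z0 ∈ y := by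
  have h1 : Z0 ∈ Rt r y ↔ {q : ℕ × ℕ | {_n : ℕ | q.1 = 0} ∈ r q.2} ∈ y := Iff.rfl
  rw [h1]
  have h2 : {q : ℕ × ℕ | {_n : ℕ | q.1 = 0} ∈ r q.2} = Z0 := by
    ext q
    by_cases h : q.1 = 0
    · simp only [h, Set.mem_ofPred_eq, Z0]
      refine iff_of_true ?_ trivial
      exact Filter.univ_mem' fun _ => trivial
    · simp only [h, Set.mem_ofPred_eq, Z0]
      refine iff_of_false ?_ not_false
      exact Ultrafilter.empty_notMem
  rw [h2]

theorem Z0_sh (y : Ultrafilter (ℕ × ℕ)) : Z0 ∉ sh y := by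
  have h1 : Z0 ∈ sh y ↔ {q : ℕ × ℕ | q.1 + 1 = 0} ∈ y := Iff.rfl
  rw [h1]
  have h2 : {q : ℕ × ℕ | q.1 + 1 = 0} = ∅ := by
    ext q
    simp
  rw [h2]
  exact Ultrafilter.empty_notMem

theorem umap_congr {α β : Type} {x : Ultrafilter α} {f g : α → β} (h : {n | f n = g n} ∈ x) :
    x.map f = x.map g :=
  Ultrafilter.coe_injective (Filter.map_congr h)

theorem umap_id {α : Type} (x : Ultrafilter α) : x.map (fun n => n) = x :=
  uext fun _ => Iff.rfl

theorem inc_snd {y : Ultrafilter (ℕ × ℕ)} (h : Z0 ∈ y) : inc (y.map Prod.snd) = y := by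
  have h1 : inc (y.map Prod.snd) = y.map fun p => ((0 : ℕ), p.2) := uext fun _ => Iff.rfl
  rw [h1]
  refine (umap_congr (g := fun p => p) ?_).trans (umap_id y)
  refine Filter.mem_of_superset h ?_
  rintro ⟨a, b⟩ hab
  have : a = 0 := hab
  subst this
  rfl

theorem bsh_sh (y : Ultrafilter (ℕ × ℕ)) : bsh (sh y) = y := by
  have h1 : bsh (sh y) = y.map fun p => (p.1 + 1 - 1, p.2) := uext fun _ => Iff.rfl
  rw [h1]
  refine (umap_congr (g := fun p => p) ?_).trans (umap_id y)
  exact Filter.univ_mem' fun p => by simp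

theorem sh_bsh {y : Ultrafilter (ℕ × ℕ)} (h : Z0 ∉ y) : sh (bsh y) = y := by
  have h1 : sh (bsh y) = y.map fun p => (p.1 - 1 + 1, p.2) := uext fun _ => Iff.rfl
  rw [h1]
  refine (umap_congr (g := fun p => p) ?_).trans (umap_id y)
  refine Filter.mem_of_superset (Ultrafilter.compl_mem_iff_notMem.2 h) ?_
  rintro ⟨a, b⟩ hab
  have h2 : a ≠ 0 := hab
  simp only [Set.mem_ofPred_eq, Prod.mk.injEq, and_true]
  omega

theorem Rt_bsh {y : Ultrafilter (ℕ × ℕ)} (h : Z0 ∉ y) : Rt r (bsh y) = bsh (Rt r y) := by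
  have h1 : Rt r y = sh (Rt r (bsh y)) := by
    rw [← Rt_sh, sh_bsh h]
  rw [h1, bsh_sh]

theorem Rt_of_Z0 {y : Ultrafilter (ℕ × ℕ)} (h : Z0 ∈ y) : Rt r y = inc (rho r y) := by
  conv_lhs => rw [← inc_snd h]
  rw [Rt_inc]
  rfl

theorem rho_Rt (hr : ∀ n, Ultrafilter.bind (r n) r = r n) {y : Ultrafilter (ℕ × ℕ)} (h : Z0 ∈ y) :
    rho r (Rt r y) = rho r y := by
  have h1 : (inc (rho r y)).map Prod.snd = rho r y := by
    have : (inc (rho r y)).map Prod.snd = (rho r y).map (fun n => n) := uext fun _ => Iff.rfl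
    rw [this, umap_id]
  have h2 : rho r (Rt r y) = Ultrafilter.bind ((Rt r y).map Prod.snd) r := rfl
  rw [h2, Rt_of_Z0 r h, h1]
  refine uext fun S => ?_
  have h3 : S ∈ (rho r y).bind r ↔ {n | {m | S ∈ r m} ∈ r n} ∈ y.map Prod.snd := Iff.rfl
  have h4 : S ∈ rho r y ↔ {n | S ∈ r n} ∈ y.map Prod.snd := Iff.rfl
  rw [h3, h4]
  have h5 : {n | {m | S ∈ r m} ∈ r n} = {n | S ∈ r n} := by
    ext n
    have h6 : n ∈ {n | {m | S ∈ r m} ∈ r n} ↔ S ∈ Ultrafilter.bind (r n) r := Iff.rfl
    rw [h6, hr]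
    rfl
  rw [h5]

theorem swindle (A : Set (Ultrafilter ℕ)) (hA : IsClosed A) (hrA : ∀ n, r n ∈ A)
    (hfix : ∀ x ∈ A, Ultrafilter.bind x r = x) :
    LEquivalent (Ultrafilter (ℕ × ℕ) ⊕ A) (Ultrafilter (ℕ × ℕ)) := by
  have hr : ∀ n, Ultrafilter.bind (r n) r = r n := fun n => hfix _ (hrA n)
  have csh : Continuous sh := continuous_umap _
  have cbsh : Continuous bsh := continuous_umap _
  have cinc : Continuous inc := continuous_umap _
  have cRt : Continuous (Rt r) := continuous_ubind _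
  have crho : Continuous (rho r) := (continuous_ubind r).comp (continuous_umap _)
  have hrho : ∀ y, rho r y ∈ A := fun y => bind_mem_of_closed hA hrA _
  let rho' : Ultrafilter (ℕ × ℕ) → A := fun y => ⟨rho r y, hrho y⟩
  have crho' : Continuous rho' := crho.subtype_mk _
  let E : C(Ultrafilter (ℕ × ℕ) ⊕ A, ℝ) →ₗ[ℝ] C(Ultrafilter (ℕ × ℕ), ℝ) :=
    { toFun := fun F =>
        ⟨fun y => (F (Sum.inl y) - F (Sum.inl (Rt r y))) +
          (chi Z0 y * F (Sum.inr (rho' y)) + (1 - chi Z0 y) * F (Sum.inl (bsh (Rt r y)))), by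
          have c1 : Continuous fun y => F (Sum.inl y) := F.continuous.comp continuous_inl
          have c2 : Continuous fun y => F (Sum.inl (Rt r y)) := c1.comp cRt
          have c3 : Continuous fun y => F (Sum.inr (rho' y)) :=
            (F.continuous.comp continuous_inr).comp crho'
          have c4 : Continuous fun y => F (Sum.inl (bsh (Rt r y))) := c1.comp (cbsh.comp cRt)
          have c5 : Continuous fun y => chi Z0 y := (chi Z0).continuous
          exact (c1.sub c2).add ((c5.mul c3).add ((continuous_const.sub c5).mul c4))⟩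
      map_add' := fun F G => by
        ext y
        simp only [ContinuousMap.add_apply, ContinuousMap.coe_mk]
        ring
      map_smul' := fun c F => by
        ext y
        simp only [ContinuousMap.smul_apply, ContinuousMap.coe_mk, smul_eq_mul, RingHom.id_apply]
        ring }
  have hE : ∀ F y, E F y = (F (Sum.inl y) - F (Sum.inl (Rt r y))) +
      (chi Z0 y * F (Sum.inr (rho' y)) + (1 - chi Z0 y) * F (Sum.inl (bsh (Rt r y)))) :=
    fun _ _ => rfl
  let I : C(Ultrafilter (ℕ × ℕ), ℝ) →ₗ[ℝ] C(Ultrafilter (ℕ × ℕ) ⊕ A, ℝ) :=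
    { toFun := fun h =>
        ⟨Sum.elim (fun y => (h y - h (Rt r y)) + h (sh (Rt r y))) (fun a => h (inc a)), by
          apply Continuous.sumElim
          · exact (h.continuous.sub (h.continuous.comp cRt)).add
              (h.continuous.comp (csh.comp cRt))
          · exact h.continuous.comp (cinc.comp continuous_subtype_val)⟩
      map_add' := fun F G => by
        ext y
        rcases y with y | a
        · simp only [ContinuousMap.add_apply, ContinuousMap.coe_mk, Sum.elim_inl]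
          ring
        · simp only [ContinuousMap.add_apply, ContinuousMap.coe_mk, Sum.elim_inr]
      map_smul' := fun c F => by
        ext y
        rcases y with y | a
        · simp only [ContinuousMap.smul_apply, ContinuousMap.coe_mk, smul_eq_mul, Sum.elim_inl,
            RingHom.id_apply]
          ring
        · simp only [ContinuousMap.smul_apply, ContinuousMap.coe_mk, smul_eq_mul, Sum.elim_inr,
            RingHom.id_apply] }
  have hI1 : ∀ h y, I h (Sum.inl y) = (h y - h (Rt r y)) + h (sh (Rt r y)) := fun _ _ => rfl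
  have hI2 : ∀ h (a : A), I h (Sum.inr a) = h (inc a) := fun _ _ => rfl
  have hIE : ∀ F, I (E F) = F := by
    intro F
    ext p
    rcases p with y | a
    · rw [hI1]
      have e1 : E F (sh (Rt r y)) = F (Sum.inl (Rt r y)) := by
        rw [hE, Rt_sh, Rt_Rt r hr, bsh_sh, chi_of_notMem (Z0_sh _)]
        ring
      rw [e1]
      by_cases hy : Z0 ∈ y
      · have hy' : Z0 ∈ Rt r y := (Z0_Rt r y).2 hy
        have e2 : rho' (Rt r y) = rho' y := Subtype.ext (rho_Rt r hr hy)
        rw [hE, hE, Rt_Rt r hr, chi_of_mem hy, chi_of_mem hy', e2]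
        ring
      · have hy' : Z0 ∉ Rt r y := fun h => hy ((Z0_Rt r y).1 h)
        rw [hE, hE, Rt_Rt r hr, chi_of_notMem hy, chi_of_notMem hy']
        ring
    · rw [hI2, hE]
      have h1 : Rt r (inc (a : Ultrafilter ℕ)) = inc a := by
        rw [Rt_inc, hfix _ a.2]
      have h2 : rho' (inc (a : Ultrafilter ℕ)) = a := by
        apply Subtype.ext
        have h3 : rho r (inc (a : Ultrafilter ℕ)) = Ultrafilter.bind a r := by
          have : (inc (a : Ultrafilter ℕ)).map Prod.snd = (a : Ultrafilter ℕ).map (fun n => n) :=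
            uext fun _ => Iff.rfl
          have h4 : rho r (inc (a : Ultrafilter ℕ)) =
            Ultrafilter.bind ((inc (a : Ultrafilter ℕ)).map Prod.snd) r := rfl
          rw [h4, this, umap_id]
        rw [show (rho' (inc (a : Ultrafilter ℕ)) : Ultrafilter ℕ) = rho r (inc a) from rfl, h3,
          hfix _ a.2]
      have h4 : Z0 ∈ inc (a : Ultrafilter ℕ) := by
        have : Z0 ∈ inc (a : Ultrafilter ℕ) ↔ {_n : ℕ | (0:ℕ) = 0} ∈ (a : Ultrafilter ℕ) := Iff.rfl
        rw [this]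
        exact Filter.univ_mem' fun _ => rfl
      rw [h1, h2, chi_of_mem h4]
      ring
  have hEI : ∀ h, E (I h) = h := by
    intro h
    ext y
    rw [hE, hI1, hI1, hI2]
    rw [Rt_Rt r hr]
    by_cases hy : Z0 ∈ y
    · rw [chi_of_mem hy]
      have e1 : inc (rho' y : Ultrafilter ℕ) = Rt r y := (Rt_of_Z0 r hy).symm
      rw [e1]
      ring
    · have hy' : Z0 ∉ Rt r y := fun h => hy ((Z0_Rt r y).1 h)
      rw [chi_of_notMem hy, hI1]
      have e1 : Rt r (bsh (Rt r y)) = bsh (Rt r y) := by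
        rw [Rt_bsh r hy', Rt_Rt r hr]
      rw [e1, sh_bsh hy']
      ring
  refine ⟨LinearEquiv.ofLinearMap E I (LinearMap.ext hEI) (LinearMap.ext hIE), ?_, ?_⟩
  · refine cp_of_comb E fun y => ?_
    have : (fun F => E F y) = fun F => (F (Sum.inl y) - F (Sum.inl (Rt r y))) +
      (chi Z0 y * F (Sum.inr (rho' y)) + (1 - chi Z0 y) * F (Sum.inl (bsh (Rt r y)))) := rfl
    rw [this]
    exact ((IsComb.eval _).sub (IsComb.eval _)).add
      (((IsComb.eval _).const_mul _).add ((IsComb.eval _).const_mul _))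
  · refine cp_of_comb I fun p => ?_
    rcases p with y | a
    · have : (fun h => I h (Sum.inl y)) = fun h => (h y - h (Rt r y)) + h (sh (Rt r y)) := rfl
      rw [this]
      exact ((IsComb.eval _).sub (IsComb.eval _)).add (IsComb.eval _)
    · have : (fun h => I h (Sum.inr a)) = fun h => h (inc a) := rfl
      rw [this]
      exact IsComb.eval _

end swindle

end Pool.Agent.Lib.MP_916210_gt
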