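import Mathlib
import Pool.Agent.Lib.MP_916210_gt.Swindle

set_option autoImplicit false

namespace Pool.Agent.Lib.MP_916210_gt

open Filter Topology Set

/-- `chi S` restricted to `A`. -/
noncomputable def chiA (A : Set (Ultrafilter ℕ)) (S : Set ℕ) : C(A, ℝ) :=
  ⟨fun a => chi S (a : Ultrafilter ℕ), (chi S).continuous.comp continuous_subtype_val⟩

theorem mass_emb (A : Set (Ultrafilter ℕ)) (μ : A →₀ ℝ) (S : Set ℕ) :
    mass (Finsupp.embDomain (Function.Embedding.subtype (· ∈ A)) μ) S =
      μ.sum fun a c => c * chiA A S a := by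
  classical
  unfold mass
  rw [Finset.sum_filter, Finsupp.support_embDomain, Finset.sum_map]
  unfold Finsupp.sum
  apply Finset.sum_congr rfl
  intro a _
  rw [Finsupp.embDomain_apply_self]
  show (if S ∈ (a : Ultrafilter ℕ) then μ a else 0) = μ a * chiA A S a
  by_cases h : S ∈ (a : Ultrafilter ℕ)
  · rw [if_pos h]
    have : chiA A S a = 1 := chi_of_mem h
    rw [this, mul_one]
  · rw [if_neg h]
    have : chiA A S a = 0 := chi_of_notMem h
    rw [this, mul_zero]

theorem amass_emb (A : Set (Ultrafilter ℕ)) (μ : A →₀ ℝ) :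
    amass (Finsupp.embDomain (Function.Embedding.subtype (· ∈ A)) μ) Set.univ =
      μ.sum fun _ c => |c| := by
  classical
  unfold amass
  rw [Finset.sum_filter, Finsupp.support_embDomain, Finset.sum_map]
  unfold Finsupp.sum
  apply Finset.sum_congr rfl
  intro a _
  rw [Finsupp.embDomain_apply_self]
  show (if Set.univ ∈ (a : Ultrafilter ℕ) then |μ a| else 0) = |μ a|
  exact if_pos Filter.univ_mem

theorem lStable_ultrafilter : LStable (Ultrafilter ℕ) := by
  classical
  rintro A ⟨φ, hφ, hext⟩
  rcases Set.eq_empty_or_nonempty A with rfl | ⟨b, hb⟩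
  · exact (LEquivalent.of_homeomorph (Homeomorph.sumEmpty (Ultrafilter ℕ)
      (∅ : Set (Ultrafilter ℕ)))).symm
  -- the representing measures
  have hrep := (cp_iff φ).1 hφ
  choose m hm using hrep
  set μ : Ultrafilter ℕ → (Ultrafilter ℕ →₀ ℝ) := fun y =>
    Finsupp.embDomain (Function.Embedding.subtype (· ∈ A)) (m y) with hμ
  have hmass : ∀ y S, mass (μ y) S = φ (chiA A S) y := by
    intro y S
    rw [hm y, hμ]
    exact mass_emb A (m y) S
  have hsupp : ∀ y, ∀ a ∈ (μ y).support, a ∈ A := by
    intro y a ha
    rw [hμ] at ha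
    simp only [Finsupp.support_embDomain, Finset.mem_map, Function.Embedding.subtype_apply] at ha
    obtain ⟨a', -, rfl⟩ := ha
    exact a'.2
  have hcont : ∀ S : Set ℕ, Continuous fun y => mass (μ y) S := by
    intro S
    simp only [hmass]
    exact (φ (chiA A S)).continuous
  -- `A` is closed
  have hAclosed : IsClosed A := by
    rw [← closure_subset_iff_isClosed]
    intro x hx
    by_contra hxA
    have hxs : x ∉ (μ x).support := fun h => hxA (hsupp x x h)
    obtain ⟨S, hS⟩ := exists_sep_finset (insert x (μ x).support) (fun a => a = x)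
    have hSx : S ∈ x := (hS x (Finset.mem_insert_self _ _)).2 rfl
    have h0 : mass (μ x) S = 0 := by
      unfold mass
      apply Finset.sum_eq_zero
      intro a ha
      rw [Finset.mem_filter] at ha
      have := (hS a (Finset.mem_insert_of_mem ha.1)).1 ha.2
      rw [this] at ha
      exact absurd ha.1 hxs
    have hcl : IsClosed {y | φ (chiA A S) y = chi S y} :=
      isClosed_eq (φ (chiA A S)).continuous (chi S).continuous
    have hsub : A ⊆ {y | φ (chiA A S) y = chi S y} := by
      intro a ha
      exact hext (chiA A S) ⟨a, ha⟩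
    have h1 : φ (chiA A S) x = chi S x := closure_minimal hsub hcl hx
    rw [← hmass, h0, chi_of_mem hSx] at h1
    exact zero_ne_one h1
  have : CompactSpace A := isCompact_iff_compactSpace.1 hAclosed.isCompact
  obtain ⟨C, hC0, hC⟩ := cp_bounded φ hφ
  have hbound : ∀ n : ℕ, amass (μ (pure n)) Set.univ ≤ C := by
    intro n
    set y : Ultrafilter ℕ := pure n with hy
    obtain ⟨S, hS⟩ := exists_sep_finset (μ y).support (fun a => 0 ≤ μ y a)
    let f : C(A, ℝ) := (2 : ℝ) • chiA A S - 1
    have hf1 : ∀ a : A, f a = if S ∈ (a : Ultrafilter ℕ) then 1 else -1 := by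
      intro a
      have e1 : f a = 2 * chi S (a : Ultrafilter ℕ) - 1 := rfl
      rw [e1]
      split_ifs with h
      · rw [chi_of_mem h]; norm_num
      · rw [chi_of_notMem h]; norm_num
    have hf2 : ‖f‖ ≤ 1 := by
      rw [ContinuousMap.norm_le _ zero_le_one]
      intro a
      rw [hf1]
      split_ifs <;> simp
    have h1 : φ f y = (m y).sum fun _ c => |c| := by
      rw [hm y]
      unfold Finsupp.sum
      apply Finset.sum_congr rfl
      intro a ha
      show m y a * f a = |m y a|
      rw [hf1]
      have hav : μ y a = m y a := by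
        rw [hμ]
        exact Finsupp.embDomain_apply_self (Function.Embedding.subtype (· ∈ A)) (m y) a
      have ham : (a : Ultrafilter ℕ) ∈ (μ y).support := by
        rw [Finsupp.mem_support_iff, hav]
        exact Finsupp.mem_support_iff.1 ha
      have h2 := hS a ham
      rw [hav] at h2
      by_cases h : S ∈ (a : Ultrafilter ℕ)
      · rw [if_pos h, abs_of_nonneg (h2.1 h), mul_one]
      · rw [if_neg h, abs_of_neg (not_le.1 fun h3 => h (h2.2 h3)), mul_neg, mul_one]
    have h2 : amass (μ y) Set.univ = φ f y := by
      rw [h1, hμ]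
      exact amass_emb A (m y)
    rw [h2]
    calc φ f y ≤ |φ f y| := le_abs_self _
      _ ≤ C * ‖f‖ := hC f y
      _ ≤ C * 1 := mul_le_mul_of_nonneg_left hf2 hC0
      _ = C := mul_one C
  have h1 : ∀ x ∈ A, ∀ S ∈ x, mass (μ x) S = 1 := by
    intro x hx S hS
    rw [hmass, hext (chiA A S) ⟨x, hx⟩]
    exact chi_of_mem hS
  obtain ⟨r, hrA, hfix⟩ := exists_retraction A b hb μ hsupp hcont C hbound h1
  have hsw := swindle r A hAclosed hrA hfix
  -- transport along a bijection `ℕ ≃ ℕ × ℕ`
  have hU : Ultrafilter ℕ ≃ₜ Ultrafilter (ℕ × ℕ) :=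
    { toFun := fun x => x.map Nat.pairEquiv.symm
      invFun := fun y => y.map Nat.pairEquiv
      left_inv := fun x => by
        have : (x.map Nat.pairEquiv.symm).map Nat.pairEquiv = x.map (fun n => n) := by
          refine uext fun S => ?_
          simp only [Ultrafilter.mem_map, ← Set.preimage_comp, Equiv.self_comp_symm]
          rfl
        simp only [this, umap_id]
      right_inv := fun y => by
        have : (y.map Nat.pairEquiv).map Nat.pairEquiv.symm = y.map (fun n => n) := by
          refine uext fun S => ?_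
          simp only [Ultrafilter.mem_map, ← Set.preimage_comp, Equiv.symm_comp_self]
          rfl
        simp only [this, umap_id]
      continuous_toFun := continuous_umap _
      continuous_invFun := continuous_umap _ }
  refine (LEquivalent.of_homeomorph hU).trans (hsw.symm.trans ?_)
  exact LEquivalent.of_homeomorph (hU.symm.sumCongr (Homeomorph.refl A))

end Pool.Agent.Lib.MP_916210_gt
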