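import Mathlib
import Pool.Agent.Lib.MP_916210_gt.Stable

set_option autoImplicit false

namespace Pool.Agent.Lib.MP_916210_gt

open Filter Topology Set

theorem not_countable_seq : ¬ Countable (ℕ → Bool) := by
  intro hc'
  have hc2 : Countable (Set ℕ) := by
    classical
    have h7 : Function.Injective (fun (s : Set ℕ) (n : ℕ) => decide (n ∈ s)) := by
      intro s t hst
      ext n
      have := congrFun hst n
      simpa using this
    exact h7.countable
  obtain ⟨g, hg⟩ := exists_surjective_nat (Set ℕ)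
  exact Function.cantor_surjective g hg

/-- A set function which is additive, vanishes on finite sets and is bounded vanishes on most
members of the almost disjoint family. -/
theorem countable_of_additive (t : Set ℕ → ℝ) (K : ℝ)
    (hadd : ∀ N N' : Set ℕ, Disjoint N N' → t (N ∪ N') = t N + t N')
    (hfin : ∀ N : Set ℕ, N.Finite → t N = 0) (hK : ∀ N, |t N| ≤ K) :
    {x : ℕ → Bool | t (adSet x) ≠ 0}.Countable := by
  classical
  have hdiff : ∀ N I : Set ℕ, I ⊆ N → I.Finite → t (N \ I) = t N := by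
    intro N I hI hfi
    have h1 := hadd (N \ I) I Set.disjoint_sdiff_left
    rw [Set.sdiff_union_of_subset hI, hfin I hfi, add_zero] at h1
    exact h1.symm
  have hsum : ∀ X : Finset (ℕ → Bool), t (⋃ x ∈ X, adSet x) = ∑ x ∈ X, t (adSet x) := by
    intro X
    induction X using Finset.induction_on with
    | empty =>
      simp only [Finset.notMem_empty, Set.iUnion_of_empty, Set.iUnion_empty, Finset.sum_empty]
      exact hfin ∅ Set.finite_empty
    | insert x X hx ih =>
      rw [Finset.sum_insert hx, Finset.set_biUnion_insert]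
      set W := ⋃ x ∈ X, adSet x with hW
      set I := adSet x ∩ W with hI
      have hIfin : I.Finite := by
        rw [hI, hW, Set.inter_iUnion₂]
        exact Set.Finite.biUnion (Finset.finite_toSet X) fun y hy =>
          adSet_inter_finite fun h => hx (h ▸ hy)
      have h1 : adSet x ∪ W = (adSet x \ I) ∪ W := by
        ext n
        simp only [hI, Set.mem_union, Set.mem_sdiff, Set.mem_inter_iff]
        tauto
      rw [h1, hadd, hdiff _ _ Set.inter_subset_left hIfin, ih]
      rw [Set.disjoint_left]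
      rintro n ⟨hn1, hn2⟩ hn3
      exact hn2 ⟨hn1, hn3⟩
  have hbd : ∀ X : Finset (ℕ → Bool), ∑ x ∈ X, |t (adSet x)| ≤ 2 * K := by
    intro X
    have h1 : ∑ x ∈ X, |t (adSet x)| = (∑ x ∈ X with 0 ≤ t (adSet x), t (adSet x)) -
        ∑ x ∈ X with ¬ 0 ≤ t (adSet x), t (adSet x) := by
      rw [← Finset.sum_filter_add_sum_filter_not X (fun x => 0 ≤ t (adSet x)), sub_eq_add_neg,
        ← Finset.sum_neg_distrib]
      congr 1
      · apply Finset.sum_congr rfl
        intro x hx
        exact abs_of_nonneg (Finset.mem_filter.1 hx).2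
      · apply Finset.sum_congr rfl
        intro x hx
        exact abs_of_neg (not_le.1 (Finset.mem_filter.1 hx).2)
    rw [h1, ← hsum, ← hsum]
    have h2 := (abs_le.1 (hK (⋃ x ∈ X.filter fun x => 0 ≤ t (adSet x), adSet x))).2
    have h3 := (abs_le.1 (hK (⋃ x ∈ X.filter fun x => ¬ 0 ≤ t (adSet x), adSet x))).1
    linarith
  have hs : Summable fun x : ℕ → Bool => |t (adSet x)| :=
    summable_of_sum_le (fun x => abs_nonneg _) hbd
  have := hs.countable_support
  refine this.mono fun x hx => ?_
  rw [Function.mem_support]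
  exact abs_ne_zero.2 hx

theorem cont_ext {f g : C(Ultrafilter ℕ, ℝ)} (h : ∀ n : ℕ, f (pure n) = g (pure n)) : f = g := by
  apply ContinuousMap.coe_injective
  apply denseRange_pure.equalizer f.continuous g.continuous
  funext n
  exact h n

theorem exists_ext (g : ℕ → ℝ) (C : ℝ) (hC0 : 0 ≤ C) (hg : ∀ m, |g m| ≤ C) :
    ∃ G : C(Ultrafilter ℕ, ℝ), (∀ m : ℕ, G (pure m) = g m) ∧ ‖G‖ ≤ C := by
  let g' : ℕ → Set.Icc (-C) C := fun m => ⟨g m, abs_le.1 (hg m)⟩
  refine ⟨⟨fun x => ((Ultrafilter.extend g' x : Set.Icc (-C) C) : ℝ), continuous_subtype_val.comp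
    (continuous_ultrafilter_extend g')⟩, fun m => ?_, ?_⟩
  · show ((Ultrafilter.extend g' (pure m) : Set.Icc (-C) C) : ℝ) = g m
    rw [ultrafilter_extend_pure]
  · rw [ContinuousMap.norm_le _ hC0]
    intro x
    exact abs_le.2 (Ultrafilter.extend g' x).2

/-- characteristic function of the `k`-th slice of `Ultrafilter ℕ × (ω+1)` -/
noncomputable def dd (k : ℕ) : C(Ultrafilter ℕ × OnePoint ℕ, ℝ) where
  toFun := (Prod.snd ⁻¹' {(k : OnePoint ℕ)}).indicator (fun _ => 1)
  continuous_toFun := by
    apply IsClopen.continuous_indicator _ continuous_const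
    apply IsClopen.preimage _ continuous_snd
    constructor
    · exact isClosed_singleton
    · have := OnePoint.isOpenEmbedding_coe.isOpenMap (U := ({k} : Set ℕ)) (isOpen_discrete _)
      simpa using this

theorem dd_coe (k m : ℕ) (x : Ultrafilter ℕ) :
    dd k (x, (m : OnePoint ℕ)) = if m = k then 1 else 0 := by
  simp only [dd, ContinuousMap.coe_mk, Set.indicator, Set.mem_preimage,
    Set.mem_singleton_iff, OnePoint.coe_eq_coe]

theorem dd_infty (k : ℕ) (x : Ultrafilter ℕ) : dd k (x, OnePoint.infty) = 0 := by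
  simp [dd, Set.indicator]

theorem sum_dd_coe (F : Finset ℕ) (m : ℕ) (x : Ultrafilter ℕ) :
    (∑ k ∈ F, dd k) (x, (m : OnePoint ℕ)) = if m ∈ F then 1 else 0 := by
  rw [ContinuousMap.sum_apply]
  simp only [dd_coe, Finset.sum_ite_eq]

theorem sum_dd_infty (F : Finset ℕ) (x : Ultrafilter ℕ) :
    (∑ k ∈ F, dd k) (x, OnePoint.infty) = 0 := by
  rw [ContinuousMap.sum_apply]
  simp only [dd_infty, Finset.sum_const_zero]

theorem norm_sum_dd (F : Finset ℕ) : ‖∑ k ∈ F, dd k‖ ≤ 1 := by
  rw [ContinuousMap.norm_le _ zero_le_one]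
  rintro ⟨x, m⟩
  induction m using OnePoint.rec with
  | infty => rw [sum_dd_infty]; simp
  | coe m =>
    rw [sum_dd_coe]
    split_ifs <;> simp

theorem not_sStable_ultrafilter : ¬ SStable (Ultrafilter ℕ) := by
  classical
  rintro ⟨e, he, he'⟩
  obtain ⟨C, hC0, hC⟩ := cp_bounded e.toLinearMap he
  obtain ⟨C', hC0', hC'⟩ := cp_bounded e.symm.toLinearMap he'
  have hC : ∀ (f : C(Ultrafilter ℕ × OnePoint ℕ, ℝ)) (y : Ultrafilter ℕ), |e f y| ≤ C * ‖f‖ := hC
  have hC' : ∀ (f : C(Ultrafilter ℕ, ℝ)) (y : Ultrafilter ℕ × OnePoint ℕ),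
    |e.symm f y| ≤ C' * ‖f‖ := hC'
  -- finiteness of the rows
  have hfin : ∀ m : ℕ, ∃ F : Finset ℕ, ∀ k, e (dd k) (pure m) ≠ 0 → k ∈ F := by
    intro m
    obtain ⟨μ, hμ⟩ := (cp_iff e.toLinearMap).1 he (pure m)
    have hμ : ∀ f : C(Ultrafilter ℕ × OnePoint ℕ, ℝ), e f (pure m) = μ.sum fun x c => c * f x := hμ
    have h1 : {k : ℕ | (k : OnePoint ℕ) ∈ μ.support.image Prod.snd}.Finite :=
      (Finset.finite_toSet (μ.support.image Prod.snd)).preimage
        (OnePoint.coe_injective.injOn)
    refine ⟨h1.toFinset, fun k hk => ?_⟩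
    rw [Set.Finite.mem_toFinset]
    by_contra hno
    apply hk
    rw [hμ]
    apply Finset.sum_eq_zero
    rintro ⟨x, n⟩ hx
    have h2 : n ≠ (k : OnePoint ℕ) := by
      intro h
      apply hno
      show (k : OnePoint ℕ) ∈ μ.support.image Prod.snd
      rw [← h]
      exact Finset.mem_image_of_mem Prod.snd hx
    have h3 : dd k (x, n) = 0 := by
      simp only [dd, ContinuousMap.coe_mk, Set.indicator, Set.mem_preimage,
        Set.mem_singleton_iff, if_neg h2]
    show μ (x, n) * dd k (x, n) = 0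
    rw [h3, mul_zero]
  choose Fm hFm using hfin
  let gN : Set ℕ → ℕ → ℝ := fun N m =>
    ∑ k ∈ Fm m, Set.indicator N (fun k => e (dd k) (pure m)) k
  have hgN : ∀ N m, gN N m = e (∑ k ∈ (Fm m).filter (· ∈ N), dd k) (pure m) := by
    intro N m
    rw [map_sum, ContinuousMap.sum_apply, Finset.sum_filter]
    rfl
  have hgN1 : ∀ N m, |gN N m| ≤ C := by
    intro N m
    rw [hgN]
    refine (hC _ _).trans ?_
    exact mul_le_of_le_one_right hC0 (norm_sum_dd _)
  have hG : ∀ N, ∃ G : C(Ultrafilter ℕ, ℝ), (∀ m : ℕ, G (pure m) = gN N m) ∧ ‖G‖ ≤ C :=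
    fun N => exists_ext (gN N) C hC0 (hgN1 N)
  choose G hG1 hG2 using hG
  have hGadd : ∀ N N' : Set ℕ, Disjoint N N' → G (N ∪ N') = G N + G N' := by
    intro N N' hd
    apply cont_ext
    intro m
    rw [ContinuousMap.add_apply, hG1, hG1, hG1]
    simp only [gN]
    rw [← Finset.sum_add_distrib]
    apply Finset.sum_congr rfl
    intro k _
    rw [Set.indicator_union_of_disjoint hd]
  have hGfin : ∀ F : Finset ℕ, G (F : Set ℕ) = e (∑ k ∈ F, dd k) := by
    intro F
    apply cont_ext
    intro m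
    rw [hG1, map_sum, ContinuousMap.sum_apply]
    have h1 : ∑ k ∈ F, e (dd k) (pure m) = ∑ k ∈ F with k ∈ Fm m, e (dd k) (pure m) := by
      rw [Finset.sum_filter_of_ne]
      intro k _ hk
      exact hFm m k hk
    have h2 : gN (F : Set ℕ) m = ∑ k ∈ Fm m with k ∈ F, e (dd k) (pure m) := by
      rw [Finset.sum_filter]
      apply Finset.sum_congr rfl
      intro k _
      rw [Set.indicator_apply]
      simp only [Finset.mem_coe]
    rw [h1, h2]
    congr 1
    ext k
    simp only [Finset.mem_filter]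
    tauto
  let p : Ultrafilter ℕ := pure 0
  let t : ℕ → Set ℕ → ℝ := fun n N => Set.indicator N (fun _ => (1:ℝ)) n -
    (e.symm (G N) (p, (n : OnePoint ℕ)) - e.symm (G N) (p, OnePoint.infty))
  have ht : ∀ n, {x : ℕ → Bool | t n (adSet x) ≠ 0}.Countable := by
    intro n
    refine countable_of_additive (t n) (1 + 2 * (C' * C)) ?_ ?_ ?_
    · intro N N' hd
      simp only [t]
      rw [hGadd N N' hd, map_add, ContinuousMap.add_apply, ContinuousMap.add_apply,
        Set.indicator_union_of_disjoint hd]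
      ring
    · intro N hN
      obtain ⟨F, rfl⟩ : ∃ F : Finset ℕ, N = (F : Set ℕ) := ⟨hN.toFinset, by simp⟩
      simp only [t]
      rw [hGfin, LinearEquiv.symm_apply_apply, sum_dd_coe, sum_dd_infty, Set.indicator_apply]
      simp only [Finset.mem_coe, sub_zero, sub_self]
    · intro N
      have h1 := hC' (G N) (p, (n : OnePoint ℕ))
      have h2 := hC' (G N) (p, OnePoint.infty)
      have h3 : C' * ‖G N‖ ≤ C' * C := mul_le_mul_of_nonneg_left (hG2 N) hC0'
      have h4 := abs_le.1 (h1.trans h3)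
      have h5 := abs_le.1 (h2.trans h3)
      simp only [t]
      rw [abs_le, Set.indicator_apply]
      split_ifs <;> constructor <;> linarith [h4.1, h4.2, h5.1, h5.2]
  have hx : ∃ x : ℕ → Bool, ∀ n, t n (adSet x) = 0 := by
    by_contra hno
    push Not at hno
    apply not_countable_seq
    rw [← Set.countable_univ_iff]
    refine (Set.countable_iUnion ht).mono fun x _ => ?_
    obtain ⟨n, hn⟩ := hno x
    exact Set.mem_iUnion.2 ⟨n, hn⟩
  obtain ⟨x, hx⟩ := hx
  -- continuity at infinity
  have h5 : Tendsto (fun m : ℕ => e.symm (G (adSet x)) (p, (m : OnePoint ℕ))) (coclosedCompact ℕ)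
      (𝓝 (e.symm (G (adSet x)) (p, OnePoint.infty))) := by
    have hc : Continuous fun y : OnePoint ℕ => e.symm (G (adSet x)) (p, y) :=
      (e.symm (G (adSet x))).continuous.comp (Continuous.prodMk_right p)
    exact (hc.tendsto _).comp OnePoint.tendsto_coe_infty
  rw [Filter.coclosedCompact_eq_cocompact, Filter.cocompact_eq_cofinite] at h5
  have h6 : Tendsto (fun m : ℕ => e.symm (G (adSet x)) (p, (m : OnePoint ℕ)) -
      e.symm (G (adSet x)) (p, OnePoint.infty)) cofinite (𝓝 0) := by
    have := h5.sub_const (e.symm (G (adSet x)) (p, OnePoint.infty))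
    rwa [sub_self] at this
  have h7 : ∀ᶠ m : ℕ in cofinite, e.symm (G (adSet x)) (p, (m : OnePoint ℕ)) -
      e.symm (G (adSet x)) (p, OnePoint.infty) < 1 := h6.eventually_lt_const one_pos
  have h8 : ∀ᶠ m : ℕ in cofinite, m ∉ adSet x := by
    filter_upwards [h7] with m hm hmx
    have h9 := hx m
    simp only [t] at h9
    rw [Set.indicator_of_mem hmx] at h9
    linarith
  have h9 : (adSet x).Finite := by
    have := Filter.mem_cofinite.1 h8
    refine this.subset fun m hm => ?_
    intro h
    exact h hm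
  exact adSet_infinite x h9

end Pool.Agent.Lib.MP_916210_gt
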